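import Pool.Agent.helper55.RI.Main2
import Pool.Agent.helper12.RI.X6
import Pool.Agent.helper20.RI.X9
import Pool.Agent.helper22.RI.X2
import Pool.Agent.helper24.RI.B1
import Pool.Agent.helper28.RI.B2
import Pool.Agent.helper28.RI.Q3
import Pool.Agent.helper3.RI.X4
import Pool.Agent.helper31.RI.X8
import Pool.Agent.helper34.RI.R1
import Pool.Agent.helper34.RI.Q2
import Pool.Agent.helper43.RI.D2
import Pool.Agent.helper49.RI.D5
import Pool.Agent.helper50.RI.B3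
import Pool.Agent.helper50.RI.R3
import Pool.Agent.helper52.RI.Q1
import Pool.Agent.helper60.RI.R5
import Pool.Agent.helper61.RI.R2
import Pool.Agent.helper63.RI.B4
import Pool.Agent.helper70.RI.D4
import Pool.Agent.helper71.RI.X7
import Pool.Agent.helper77.RI.F2
import Pool.Agent.helper87.RI.K2
import Pool.Agent.helper89.RI.D1
import Pool.Agent.helper89.RI.X1
import Pool.Agent.helper91.RI.K1
import Pool.Agent.helper93.RI.K3
import Pool.Agent.helper93.RI.R4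
import Pool.Agent.helper95.RI.X3
import Pool.Agent.helper97.RI.D3
import Pool.Agent.helper98.RI.F1

/-!
# The theorems without hypotheses
-/

set_option autoImplicit false

namespace Pool.Agent.RI

open Function

theorem uR2 : R2_stmt := R2 R1
theorem uX5 : X5_stmt := X5 (X4 X3)
theorem uX9 : X9_stmt := X9 X1 X6 X7
theorem uK1 : K1_stmt := K1 uR2 R3 R5
theorem uK2 : K2_stmt := K2 uR2 R3 R5 uK1
theorem uF1 : F1_stmt := F1 X1 X2 uX5 X8 uX9 uR2 R3 uK1 uK2 K3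
theorem uD5 : D5_stmt := D5 (D2 uR2 R3 R4 R5 X8 uK1) (D3 K3 D1) (D4 uX9 K3) uX5 uX9
theorem uQ2 : Q2_stmt := Q2 (Q1 R3 R5 X8) uR2 R3 R5 X8 uK1
theorem uQ3 : Q3_stmt := Q3 uX9 uK2 K3
theorem uB3 : B3_stmt := B3 uK2 K3
theorem uB4 : B4_stmt := B4 uK2 K3 B1 B2 uB3
theorem uF2 : F2_stmt := F2 uF1 uD5 uK1 K3 uQ2 uQ3 uB4

theorem uNat : ∃ C, NatComplete C := ⟨KS, M_KS uF1 uK1 uK2 K3⟩

/-- the criterion -/
theorem uMain (k : ℕ) (C₀ : Set W) (hC₀ : NatComplete C₀) :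
    List.TFAE [Question,
      ¬ ∃ f, Scrambling f,
      ¬ ∃ f, Scrambling f ∧ Hon k f,
      ∀ f : W → W, PTime f → Injective f → ∃ g, PInv g ∧ Set.range g ⊆ Set.range f,
      ∀ f : W → W, PTime f → Injective f → Hon k f → ∃ g, PInv g ∧ Set.range g ⊆ Set.range f,
      ∀ C : Set W, Complete C → ∃ g, PInv g ∧ Set.range g ⊆ C,
      ∀ C : Set W, Complete C → ∃ L : Set W, L ⊆ C ∧ L.Nonempty ∧ Paddable L,
      ∀ f : W → W, PTime f → Injective f → Hon k f → PIso C₀ (f '' C₀)] :=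
  main_thm uF1 uK1 uK2 K3 uR2 R3 R5 uB4 uF2 k C₀ hC₀

theorem uLi1 (k : ℕ) :
    List.TFAE [∀ C : Set W, Complete C → LiComplete C,
      ∀ f : W → W, PTime f → Injective f → ∃ g, LInc g ∧ Set.range g ⊆ Set.range f,
      ∀ f : W → W, PTime f → Injective f → Hon k f → ∃ g, LInc g ∧ Set.range g ⊆ Set.range f,
      ∀ C : Set W, Complete C → ∃ g, LInc g ∧ Set.range g ⊆ C] :=
  li_first uF1 uK1 uK2 K3 uR2 R3 R5 X8 uX9 uD5 k

theorem uLi2 :
    List.TFAE [∀ A B : Set W, LiComplete A → LiComplete B → PIso A B,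
      ∀ f : W → W, LInc f → ∃ g, PInv g ∧ Set.range g ⊆ Set.range f,
      ¬ ∃ f, Scrambling f ∧ Li f,
      ∀ C : Set W, LiComplete C → ∃ g, PInv g ∧ Set.range g ⊆ C] :=
  li_second uF1 uK1 uK2 K3 uR2 R3 R5 uB4 uQ2 uQ3

theorem uLi3 : Question ↔ (∀ C : Set W, Complete C → LiComplete C) ∧
    ∀ A B : Set W, LiComplete A → LiComplete B → PIso A B :=
  li_third uF1 uK1 uK2 K3 uB3

end Pool.Agent.RI
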