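import Pool.Agent.helper55.RI.SpecG

/-!
# Project rg (MP_2bd605_lc), module G1: pairs
-/

set_option autoImplicit false

namespace Pool.Agent.RI

open Pool.Agent.helper62 Prog Function Pool.Agent.helper81.PL

theorem G1_inN (a : ℕ) (x : W) : inN (pre a x) = a := by
  unfold inN
  have h : (List.range (pre a x).length).find? (fun i => !((pre a x).getD i false)) = some a := by
    rw [List.find?_range_eq_some]
    refine ⟨?_, ?_, ?_⟩
    · simp [pre, List.getD_eq_getElem?_getD]
    · simp [pre]
    · intro j hj
      simp [pre, List.getD_eq_getElem?_getD, List.getElem?_append_left, hj]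
  rw [h]
  rfl

theorem G1_drop (a : ℕ) (x : W) : (pre a x).drop (a + 1) = x := by
  unfold pre
  rw [← List.drop_drop]
  simp

theorem G1_pr (x y : W) : pr x y = pre x.length (x ++ y) := rfl

theorem G1 : G1_stmt := by
  have hN : PT inN := INW1
  have h1 : PT fs := by
    unfold fs
    fun_prop
  have h2 : PT sn := by
    unfold sn
    fun_prop
  have h3 : PT (fun p : W × W => pr p.1 p.2) := by
    unfold pr
    fun_prop
  refine ⟨h1, h2, h3, ?_, ?_, ?_, ?_⟩
  · intro x y
    unfold fs
    rw [G1_pr, G1_inN, G1_drop]
    simp
  · intro x y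
    unfold sn
    rw [G1_pr, G1_inN]
    have : 2 * x.length + 1 = x.length + 1 + x.length := by omega
    rw [this, ← List.drop_drop, G1_drop]
    simp
  · intro w
    unfold fs
    rw [List.length_take, List.length_drop]
    omega
  · intro x y
    unfold pr
    simp
    omega

end Pool.Agent.RI
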