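import Pool.Agent.helper55.RI.SpecG

/-!
# Project rg (MP_2bd605_lc), module G2: primitive recursive toolbox
-/

set_option autoImplicit false
set_option linter.unusedSectionVars false
set_option linter.unusedVariables false

namespace Pool.Agent.RI

open Pool.Agent.helper62 Prog Function Pool.Agent.helper81.PL

section gen

variable {α β : Type} [Primcodable α] [Primcodable β]

theorem G2_findIdx {p : β → Bool} (l : List β) : l.find? p = l[l.findIdx p]? := by
  induction l with
  | nil => rfl
  | cons a l ih =>
    rw [List.find?_cons, List.findIdx_cons]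
    cases h : p a with
    | true => simp
    | false => simp [ih]

theorem G2_find {l : α → List β} {p : α → β → Bool} (hl : Primrec l) (hp : Primrec₂ p) :
    Primrec (fun a => (l a).find? (p a)) :=
  (Primrec.list_getElem?.comp hl (Primrec.list_findIdx hl hp)).of_eq
    fun a => (G2_findIdx (l a)).symm

theorem G2_any {l : α → List β} {p : α → β → Bool} (hl : Primrec l) (hp : Primrec₂ p) :
    Primrec (fun a => (l a).any (p a)) := by
  refine (Primrec.option_isSome.comp (G2_find hl hp)).of_eq fun a => ?_
  rw [Bool.eq_iff_iff, List.find?_isSome, List.any_eq_true]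

theorem G2_all {l : α → List β} {p : α → β → Bool} (hl : Primrec l) (hp : Primrec₂ p) :
    Primrec (fun a => (l a).all (p a)) := by
  have h : Primrec₂ (fun a b => !p a b) := (Primrec.not.comp hp).to₂
  refine (Primrec.not.comp (G2_any hl h)).of_eq fun a => ?_
  rw [List.not_any_eq_all_not]
  simp

theorem G2_filter {l : α → List β} {p : α → β → Bool} (hl : Primrec l) (hp : Primrec₂ p) :
    Primrec (fun a => (l a).filter (p a)) := by
  have h : Primrec₂ (fun a b => bif p a b then some b else none) :=
    (Primrec.cond hp (Primrec.option_some.comp Primrec.snd) (Primrec.const none)).to₂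
  refine (Primrec.listFilterMap hl h).of_eq fun a => ?_
  induction l a with
  | nil => rfl
  | cons b t ih =>
    rw [List.filterMap_cons, List.filter_cons]
    cases hb : p a b <;> simp [ih]

end gen

theorem G2_E : Primrec₂ E := by
  have hdec : Primrec (fun k : ℕ =>
      (Encodable.decode (α := List Ins × ℕ × ℕ) k).getD ([], 0, 0)) :=
    Primrec.option_getD.comp Primrec.decode (Primrec.const ([], 0, 0))
  exact (X8_ev_primrec.comp (hdec.comp Primrec.fst) Primrec.snd).of_eq fun p => rfl

theorem G2_rep : Primrec (fun n : ℕ => List.replicate n true) := by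
  have h : Primrec₂ (fun (_ : ℕ) (l : W) => true :: l) :=
    (Primrec.list_cons.comp (Primrec.const true) Primrec.snd).to₂
  refine (Primrec.nat_iterate (f := fun n : ℕ => n) (g := fun _ => ([] : W))
    (h := fun _ l => true :: l) Primrec.id (Primrec.const []) h).of_eq fun n => ?_
  induction n with
  | zero => rfl
  | succ n ih => rw [Function.iterate_succ_apply', ih, List.replicate_succ]

theorem G2_pre : Primrec₂ pre :=
  (Primrec.list_append.comp (G2_rep.comp Primrec.fst)
    (Primrec.list_cons.comp (Primrec.const false) Primrec.snd)).of_eq fun p => rfl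

theorem G2_pr : Primrec₂ pr :=
  (Primrec.list_append.comp (G2_rep.comp (Primrec.list_length.comp Primrec.fst))
    (Primrec.list_cons.comp (Primrec.const false)
      (Primrec.list_append.comp Primrec.fst Primrec.snd))).of_eq fun p => rfl

theorem G2_mem (n : ℕ) (w : W) : w ∈ wds n ↔ w.length < n := by
  induction n generalizing w with
  | zero => simp [wds]
  | succ n ih =>
    unfold wds
    rw [List.mem_cons, List.mem_flatMap]
    cases w with
    | nil => simp
    | cons b w =>
      simp only [List.length_cons, Nat.add_lt_add_iff_right, List.mem_cons, List.not_mem_nil,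
        or_false, reduceCtorEq, false_or, List.cons.injEq]
      constructor
      · rintro ⟨a, ha, h | h⟩
        · rw [h.2]; exact (ih a).1 ha
        · rw [h.2]; exact (ih a).1 ha
      · intro h
        refine ⟨w, (ih w).2 h, ?_⟩
        cases b <;> simp

theorem G2_wds : Primrec wds := by
  have h : Primrec₂ (fun (_ : ℕ) (l : List W) =>
      ([] : W) :: l.flatMap (fun w => [false :: w, true :: w])) := by
    have h1 : Primrec₂ (fun (_ : ℕ × List W) (w : W) => [false :: w, true :: w]) := by
      refine (Primrec.list_cons.comp (Primrec.list_cons.comp (Primrec.const false) Primrec.snd)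
        (Primrec.list_cons.comp (Primrec.list_cons.comp (Primrec.const true) Primrec.snd)
          (Primrec.const []))).to₂
    exact (Primrec.list_cons.comp (Primrec.const ([] : W))
      (Primrec.list_flatMap (f := fun x : ℕ × List W => x.2) Primrec.snd h1)).to₂
  refine (Primrec.nat_iterate (f := fun n : ℕ => n) (g := fun _ => ([] : List W))
    (h := fun _ l => ([] : W) :: l.flatMap (fun w => [false :: w, true :: w]))
    Primrec.id (Primrec.const []) h).of_eq fun n => ?_
  induction n with
  | zero => rfl
  | succ n ih => rw [Function.iterate_succ_apply', ih, wds]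

theorem G2_uu : Primrec (fun p : ℕ × ℕ × W => uu p.1 p.2.1 p.2.2) :=
  (G2_E.comp Primrec.fst (G2_pre.comp Primrec.fst
    (G2_pre.comp (Primrec.fst.comp Primrec.snd) (Primrec.snd.comp Primrec.snd)))).of_eq
    fun p => rfl

theorem G2_lng : Primrec (fun p : ℕ × ℕ × W => lng p.1 p.2.1 p.2.2) :=
  (Primrec.nat_lt.decide.comp (Primrec.list_length.comp (Primrec.snd.comp Primrec.snd))
    (X8_pow_primrec.comp (Primrec.const 2) (Primrec.list_length.comp G2_uu))).of_eq fun p => rfl

theorem G2_cm : Primrec₂ cm := by
  have h1 : Primrec (fun p : ℕ × W => List.range (2 * p.2.length + 1)) :=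
    Primrec.list_range.comp (Primrec.succ.comp (Primrec.nat_mul.comp (Primrec.const 2)
      (Primrec.list_length.comp Primrec.snd)))
  have h2 : Primrec₂ (fun (p : ℕ × W) (c : ℕ) => lng p.1 c p.2) :=
    (G2_lng.comp (Primrec.pair (Primrec.fst.comp Primrec.fst)
      (Primrec.pair Primrec.snd (Primrec.snd.comp Primrec.fst)))).to₂
  exact (Primrec.option_getD.comp (G2_find h1 h2) (Primrec.const 0)).of_eq fun p => rfl

theorem G2_GG : Primrec₂ GG :=
  (G2_uu.comp (Primrec.pair Primrec.fst (Primrec.pair G2_cm Primrec.snd))).of_eq fun p => rfl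

theorem G2 : G2_stmt := by
  refine ⟨G2_E, ?_, Primrec.encode, ?_, G2_pre, G2_pr, G2_mem, G2_wds, G2_uu, G2_lng, G2_GG,
    ?_, ?_⟩
  · intro f hf
    obtain ⟨k, hk⟩ := uX9.2 f hf
    rw [← hk]
    exact G2_E.comp (Primrec.const k) Primrec.id
  · exact Primrec.option_getD.comp Primrec.decode (Primrec.const [])
  · intro α _ l p hl hp
    exact ⟨G2_any hl hp, G2_all hl hp, G2_find hl hp, G2_filter hl hp⟩
  · intro α _ l p hl hp
    have hr : Primrec (fun a => List.range (l a)) := Primrec.list_range.comp hl
    exact ⟨G2_any hr hp, G2_all hr hp,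
      Primrec.option_getD.comp (G2_find hr hp) (Primrec.const 0)⟩

end Pool.Agent.RI
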