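import Pool.Agent.helper55.RI.SpecV

/-!
# Project rg (MP_2bd605_lc), module V7: analysis of the diagonal set
-/

set_option autoImplicit false

namespace Pool.Agent.RI

open Pool.Agent.helper62 Prog Function Pool.Agent.helper81.PL

theorem V7_pr (hG1 : G1_stmt) {i x i' x' : W} (h : pr i x = pr i' x') : i = i' ∧ x = x' := by
  constructor
  · rw [← hG1.2.2.2.1 i x, h, hG1.2.2.2.1]
  · rw [← hG1.2.2.2.2.1 i x, h, hG1.2.2.2.2.1]

/-- a prefix which has a solution has the same first solution -/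
theorem V7_find {p : W → Bool} {l m : List W} (h : l <+: m) {y : W} (hy : y ∈ l)
    (hp : p y = true) : l.find? p = m.find? p := by
  obtain ⟨t, rfl⟩ := h
  rw [List.find?_append]
  have h1 : (l.find? p).isSome = true := List.find?_isSome.mpr ⟨y, hy, hp⟩
  cases h2 : l.find? p with
  | none => rw [h2] at h1; simp at h1
  | some v => rfl

section
variable (hV5 : V5_stmt)
include hV5

theorem V7_some (i x : W) : ∃ y, (wds (x.length + 1)).find? (fun y => decide (GE i y = GE i x)) = some y ∧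
    y0 i x = y ∧ GE i y = GE i x ∧ y.length ≤ x.length := by
  have hx : x ∈ wds (x.length + 1) := (hV5.2.2.2.2 _ _).2 (Nat.lt_succ_self _)
  have h1 : ((wds (x.length + 1)).find? (fun y => decide (GE i y = GE i x))).isSome = true :=
    List.find?_isSome.mpr ⟨x, hx, by simp⟩
  obtain ⟨y, hy⟩ := Option.isSome_iff_exists.mp h1
  refine ⟨y, hy, ?_, ?_, ?_⟩
  · unfold y0
    rw [hy]
    rfl
  · simpa using List.find?_some hy
  · have := List.mem_of_find?_eq_some hy
    exact Nat.lt_succ_iff.mp ((hV5.2.2.2.2 _ _).1 this)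

theorem V7_unique (i x x' : W) (h : GE i x = GE i x') : y0 i x = y0 i x' := by
  wlog hle : x.length ≤ x'.length generalizing x x'
  · exact (this x' x h.symm (by omega)).symm
  have hx : x ∈ wds (x.length + 1) := (hV5.2.2.2.2 _ _).2 (Nat.lt_succ_self _)
  obtain ⟨y, hy, hy0, -, -⟩ := V7_some hV5 i x
  obtain ⟨y', hy', hy0', -, -⟩ := V7_some hV5 i x'
  rw [hy0, hy0']
  have h1 : (wds (x.length + 1)).find? (fun y => decide (GE i y = GE i x)) =
      (wds (x'.length + 1)).find? (fun y => decide (GE i y = GE i x)) :=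
    V7_find (hV5.2.2.2.1 _ _ (by omega)) hx (by simp)
  rw [h] at hy h1
  rw [hy, hy'] at h1
  exact Option.some.inj h1

theorem V7_idem (i x : W) : y0 i (y0 i x) = y0 i x := by
  obtain ⟨y, -, hy0, hv, -⟩ := V7_some hV5 i x
  rw [hy0]
  have := V7_unique hV5 i y x hv
  rw [this, hy0]

end

theorem V7_mem (hG1 : G1_stmt) (A : Set W) (i x : W) : pr i x ∈ DE A ↔
    (((GE i x).length ≤ x.length ∧ GE i x ∉ A) ∨
      (x.length < (GE i x).length ∧ ((y0 i x = x ∧ TE A i x) ∨ (y0 i x ≠ x ∧ ¬ TE A i (y0 i x))))) := by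
  constructor
  · rintro ⟨i', x', he, h⟩
    obtain ⟨rfl, rfl⟩ := V7_pr hG1 he
    exact h
  · intro h
    exact ⟨i, x, rfl, h⟩

theorem V7 (hG1 : G1_stmt) (hV5 : V5_stmt) : V7_stmt := by
  intro A i h
  have hk : ∀ x, pr i x ∈ DE A ↔ GE i x ∈ A := fun x => h (pr i x)
  have hlen : ∀ x, x.length < (GE i x).length := by
    intro x
    by_contra hc
    have h1 := (V7_mem hG1 A i x)
    have h2 := hk x
    by_cases hA : GE i x ∈ A
    · rcases h1.1 (h2.2 hA) with h3 | h3
      · exact h3.2 hA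
      · omega
    · exact hA (h2.1 (h1.2 (Or.inl ⟨by omega, hA⟩)))
  have hT : ∀ y, y0 i y = y → (TE A i y ↔ GE i y ∈ A) := by
    intro y hy
    rw [← hk y, V7_mem hG1]
    have := hlen y
    constructor
    · intro ht
      exact Or.inr ⟨this, Or.inl ⟨hy, ht⟩⟩
    · rintro (h3 | ⟨-, h3 | h3⟩)
      · omega
      · exact h3.2
      · exact absurd hy h3.1
  have hy0 : ∀ x, y0 i x = x := by
    intro x
    by_contra hne
    obtain ⟨y, -, hy, hv, -⟩ := V7_some hV5 i x
    have h1 := V7_idem hV5 i x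
    have h2 := hT (y0 i x) h1
    have h3 : GE i (y0 i x) = GE i x := by rw [hy]; exact hv
    rw [h3] at h2
    have h4 := hk x
    rw [V7_mem hG1] at h4
    have h5 := hlen x
    by_cases ht : TE A i (y0 i x)
    · have h6 := h4.2 (h2.1 ht)
      rcases h6 with h7 | ⟨-, h7 | h7⟩
      · omega
      · exact hne h7.1
      · exact h7.2 ht
    · exact ht (h2.2 (h4.1 (Or.inr ⟨h5, Or.inr ⟨hne, ht⟩⟩)))
  refine ⟨?_, hlen, fun x => hT x (hy0 x)⟩
  intro x x' hxx
  rw [← hy0 x, ← hy0 x']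
  exact V7_unique hV5 i x x' hxx

end Pool.Agent.RI
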