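import Pool.Agent.helper55.RI.Main3
import Pool.Agent.helper55.RI.G1
import Pool.Agent.helper55.RI.G2
import Pool.Agent.helper25.RI.G3
import Pool.Agent.helper11.RI.G4
import Pool.Agent.helper99.RI.G5
import Pool.Agent.helper57.RI.G6
import Pool.Agent.helper92.RI.G7
import Pool.Agent.helper99.RI.G8
import Pool.Agent.helper91.RI.G9
import Pool.Agent.helper59.RI.G10
import Pool.Agent.helper64.RI.S1
import Pool.Agent.helper89.RI.S2
import Pool.Agent.helper99.RI.S3
import Pool.Agent.helper18.RI.V1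
import Pool.Agent.helper76.RI.V2
import Pool.Agent.helper43.RI.V3
import Pool.Agent.helper20.RI.V4
import Pool.Agent.helper25.RI.V5
import Pool.Agent.helper76.RI.V6
import Pool.Agent.helper55.RI.V7
import Pool.Agent.helper66.RI.V8
import Pool.Agent.helper99.RI.V9
import Pool.Agent.helper3.RI.V10

/-!
# Project rg: the theorems without hypotheses
-/

set_option autoImplicit false

namespace Pool.Agent.RI

open Function

theorem uV4 : V4_stmt := V4 V3 uX9

theorem uG7 : G7_stmt := G7 G1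

theorem uG10 : G10_stmt := G10 G1

theorem uFinal :
    (∀ 𝒞 : Set (Set W), Good 𝒞 → (∃ C, CompleteIn 𝒞 C) → (IsoIn 𝒞 ↔ Question)) ∧
    (∀ n, Good (Sig n) ∧ (∃ C, CompleteIn (Sig n) C) ∧ (IsoIn (Sig n) ↔ Question)) ∧
    (∃ C, CompleteIn {A | EXPT A} C) ∧
    List.TFAE [IsoIn {A | EXPT A},
      ¬ ∃ f, Scrambling f ∧ Li f,
      ∀ f : W → W, LInc f → ∃ g, PInv g ∧ Set.range g ⊆ Set.range f,
      ∀ A B : Set W, LiComplete A → LiComplete B → PIso A B] ∧
    (Question ↔ (∀ C : Set W, Complete C → LiComplete C) ∧ IsoIn {A | EXPT A}) :=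
  O_final (O_G (G4 G1 G2 (G3 G2)) G5 (G6 G1) uG7 (G8 G1) (G9 G2) uG10)
    (O_V V1 V2 uV4 (V6 G1 uV4 V5) (V7 G1 V5) (V8 G1 uV4 V5) (V9 uV4 V5) (V10 V5) G1 uG7 uG10)
    (O_S S1 (S2 G1 G2) S3)

end Pool.Agent.RI
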