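import Mathlib

/-!
# Polynomially complete r.e. sets: definitions

Words over `{0,1}` are lists of Booleans. Polynomial time is that of Mathlib's Turing machines
(`Turing.TM2ComputableInPolyTime`), r.e. sets are those of Mathlib (`REPred`).
-/

set_option autoImplicit false

namespace Pool.Agent.RI

/-- words over `{0,1}` -/
abbrev W : Type := List Bool

/-- `f` is computed by a Turing machine in polynomial time in the length of the input. -/
def PTime (f : W → W) : Prop :=
  Nonempty (Turing.TM2ComputableInPolyTime (id : W → List Bool) (id : W → List Bool) f)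

/-- recursively enumerable sets of words -/
def RE (A : Set W) : Prop := REPred (fun x => x ∈ A)

/-- polynomial time many-one reducibility `A ≤ B` -/
def Red (A B : Set W) : Prop := ∃ f : W → W, PTime f ∧ ∀ x, x ∈ A ↔ f x ∈ B

/-- polynomially complete r.e. sets -/
def Complete (C : Set W) : Prop := RE C ∧ ∀ A : Set W, RE A → Red A C

/-- polynomially isomorphic sets -/
def PIso (A B : Set W) : Prop :=
  ∃ h g : W → W, PTime h ∧ PTime g ∧ (∀ x, g (h x) = x) ∧ (∀ x, h (g x) = x) ∧
    ∀ x, x ∈ A ↔ h x ∈ B

/-- `g` is one-one, computable in polynomial time, with a polynomial time inverse. -/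
def PInv (g : W → W) : Prop := PTime g ∧ ∃ m : W → W, PTime m ∧ ∀ x, m (g x) = x

/-- the pair `⟨x, y⟩ = 1^|x| 0 x y` -/
def pr (x y : W) : W := List.replicate x.length true ++ false :: (x ++ y)

/-- `L` is paddable: there is a one-one padding function `q(x, y)`, computable in polynomial time
together with its inverse, such that `q(x, y) ∈ L` if and only if `x ∈ L`. -/
def Paddable (L : Set W) : Prop :=
  ∃ q r : W → W, PTime q ∧ PTime r ∧ (∀ x y, r (q (pr x y)) = pr x y) ∧
    ∀ x y, q (pr x y) ∈ L ↔ x ∈ L

/-- scrambling functions: one-one polynomial time functions whose range contains no nonempty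
paddable set -/
def Scrambling (f : W → W) : Prop :=
  PTime f ∧ Function.Injective f ∧ ∀ L : Set W, L ⊆ Set.range f → L.Nonempty → ¬ Paddable L

/-- The question: any two polynomially complete r.e. sets are polynomially isomorphic. -/
def Question : Prop := ∀ A B : Set W, Complete A → Complete B → PIso A B

end Pool.Agent.RI
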