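import Pool.Agent.helper55.RI.Spec

/-!
# Module F3: paddable subsets from isomorphisms
-/

set_option autoImplicit false
set_option linter.unusedVariables false
set_option linter.unusedSectionVars false

namespace Pool.Agent.RI

open Pool.Agent.helper62 Prog Function Pool.Agent.helper81.PL

lemma F3_inN (n : ℕ) (l : W) : inN (List.replicate n true ++ false :: l) = n := by
  unfold inN
  have h : (List.range (List.replicate n true ++ false :: l).length).find?
      (fun i => !((List.replicate n true ++ false :: l).getD i false)) = some n := by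
    rw [List.find?_range_eq_some]
    refine ⟨?_, ?_, ?_⟩
    · simp [List.getD_eq_getElem?_getD]
    · simp
    · intro j hj
      simp [List.getD_eq_getElem?_getD, List.getElem?_append_left, hj]
  rw [h]; rfl

/-- first component of a pair -/
def F3_fst (w : W) : W := (w.drop (inN w + 1)).take (inN w)

/-- second component of a pair -/
def F3_snd (w : W) : W := w.drop (inN w + 1 + inN w)

lemma F3_fst_pr (x y : W) : F3_fst (pr x y) = x := by
  unfold F3_fst pr
  rw [F3_inN]
  have e : (List.replicate x.length true ++ false :: (x ++ y)).drop (x.length + 1) = x ++ y := by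
    have h : x.length + 1 = (List.replicate x.length true).length + 1 := by simp
    rw [h, ← List.drop_drop, List.drop_left]
    rfl
  rw [e, List.take_left]

lemma F3_snd_pr (x y : W) : F3_snd (pr x y) = y := by
  unfold F3_snd pr
  rw [F3_inN]
  have e : (List.replicate x.length true ++ false :: (x ++ y)).drop (x.length + 1) = x ++ y := by
    have h : x.length + 1 = (List.replicate x.length true).length + 1 := by simp
    rw [h, ← List.drop_drop, List.drop_left]
    rfl
  rw [← List.drop_drop, e, List.drop_left]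

lemma F3_PT_fst : PT F3_fst := by
  unfold F3_fst
  have h : PT inN := INW1
  fun_prop

lemma F3_PT_snd : PT F3_snd := by
  unfold F3_snd
  have h : PT inN := INW1
  fun_prop

lemma F3_PT_pr : PT (fun p : W × W => pr p.1 p.2) := by
  unfold pr
  fun_prop

/-- Sets isomorphic to `KS` are paddable and nonempty. -/
theorem F3_gen (hF1 : F1_stmt) (hK1 : K1_stmt) (hK2 : K2_stmt) (hK3 : K3_stmt) (hR2 : R2_stmt)
    (hR3 : R3_stmt) (hR5 : R5_stmt) (L : Set W) (hL : PIso KS L) : L.Nonempty ∧ Paddable L := by
  obtain ⟨h, g, hh, hg, hgh, hhg, hmem⟩ := hL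
  obtain ⟨hPT, hC, hcomp, -⟩ := hF1
  -- the set of padded elements is r.e.
  have hprC : Computable (fun p : W × W => pr p.1 p.2) := by
    have h1 : Computable (fun p : W × W => (p.1.length, p.1 ++ p.2)) :=
      (hR5.2.1.comp Computable.fst).pair
        ((Primrec.list_append.to_comp : Computable₂ (fun (x y : W) => x ++ y)).comp
          Computable.fst Computable.snd)
    exact hR5.1.comp h1
  have hA : RE {w : W | ∃ p : W × W, w = pr p.1 p.2 ∧ p.1 ∈ KS} := by
    refine hR2.2.2.1 W (W × W) (fun w p => w = pr p.1 p.2 ∧ p.1 ∈ KS) ?_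
    refine (hR2.1 (W × W × W) _ _ ?_ ?_).1
    · exact (hR3.2.2.2.1 (W × W × W) W (fun q => q.1) (fun q => pr q.2.1 q.2.2) Computable.fst
        (hprC.comp Computable.snd)).to_re
    · exact hR2.2.1 (W × W × W) W (fun q => q.2.1) (fun x => x ∈ KS)
        (Computable.fst.comp Computable.snd) hK1.1
  obtain ⟨a, ha⟩ := hK2.1 _ hA
  have ha' : ∀ x y : W, pre a (pr x y) ∈ KS ↔ x ∈ KS := by
    intro x y
    rw [← ha (pr x y)]
    constructor
    · rintro ⟨p, hp, hp2⟩
      have : x = p.1 := by rw [← F3_fst_pr x y, hp, F3_fst_pr]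
      rw [this]; exact hp2
    · intro hx
      exact ⟨(x, y), rfl, hx⟩
  -- `KS` is not empty
  have hU : RE (Set.univ : Set W) := by
    have h1 : REPred (fun x : W => x = x) :=
      (hR3.2.2.2.1 W W (fun x => x) (fun x => x) Computable.id Computable.id).to_re
    exact h1.of_eq (fun x => by simp)
  obtain ⟨b, hb⟩ := hK2.1 _ hU
  have hKS : pre b [] ∈ KS := (hb []).mp (Set.mem_univ _)
  have hdrop : ∀ (x : W), (pre a x).drop (a + 1) = x := by
    intro x
    have h1 : a + 1 = (List.replicate a true).length + 1 := by simp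
    unfold pre
    rw [h1, ← List.drop_drop, List.drop_left]
    rfl
  have hhPT : PT h := (hPT h).mp hh
  have hgPT : PT g := (hPT g).mp hg
  have hfst := F3_PT_fst
  have hsnd := F3_PT_snd
  have hpr := F3_PT_pr
  refine ⟨⟨h (pre b []), (hmem _).mp hKS⟩,
    fun w => h (pre a (pr (g (F3_fst w)) (F3_snd w))),
    fun v => pr (h (F3_fst ((g v).drop (a + 1)))) (F3_snd ((g v).drop (a + 1))),
    (hPT _).mpr ?_, (hPT _).mpr ?_, ?_, ?_⟩
  · have h1 : PT (fun w : W => pr (g (F3_fst w)) (F3_snd w)) :=
      PT.comp (f := fun w : W => (g (F3_fst w), F3_snd w)) hpr (by fun_prop)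
    have h2 : PT (fun w : W => pre a (pr (g (F3_fst w)) (F3_snd w))) :=
      PT.comp (f := fun w : W => (a, pr (g (F3_fst w)) (F3_snd w))) hK3.1
        (PT.pair (PT.const _) h1)
    exact PT.comp hhPT h2
  · exact PT.comp (f := fun v : W => (h (F3_fst ((g v).drop (a + 1))),
      F3_snd ((g v).drop (a + 1)))) hpr (by fun_prop)
  · intro x y
    simp only [hgh, hdrop, F3_fst_pr, F3_snd_pr, hhg]
  · intro x y
    beta_reduce
    rw [F3_fst_pr, F3_snd_pr, ← hmem, ha', hmem, hhg]

theorem F3 (hF1 : F1_stmt) (hK1 : K1_stmt) (hK2 : K2_stmt) (hK3 : K3_stmt) (hR2 : R2_stmt)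
    (hR3 : R3_stmt) (hR5 : R5_stmt) : F3_stmt := fun f _ _ h =>
  ⟨f '' KS, Set.image_subset_range _ _, F3_gen hF1 hK1 hK2 hK3 hR2 hR3 hR5 _ h⟩

end Pool.Agent.RI
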