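import Pool.Agent.helper55.RI.LiDefs
import Pool.Agent.helper52.RI.Q1

/-!
# Length-increasing completeness: the decoder is r.e.
-/

set_option autoImplicit false

namespace Pool.Agent.RI

open Pool.Agent.helper62 Prog Function Pool.Agent.helper81.PL

theorem L2 (hL1 : L1_stmt) (hK1 : K1_stmt) (hR2 : R2_stmt) (hR3 : R3_stmt) (hR5 : R5_stmt)
    (hX8 : X8_stmt) : L2_stmt := by
  intro f hf hlen
  have hF := hL1 f hf hlen
  obtain ⟨c1, c2, c3, c4, c5, c6, B, hB, hB'⟩ := hR5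
  obtain ⟨r1, r2, r3, r4, r5⟩ := hR3
  obtain ⟨s1, s2, s3, s4, s5⟩ := hR2
  -- the predicate with all variables
  have h1 : REPred (fun x : (ℕ × W) × (ℕ × ℕ × W) =>
      E x.2.1 (pre x.2.1 (pre x.2.2.1 x.2.2.2)) = f (pre x.1.1 x.1.2)) := by
    refine (r4 _ _ _ _ ?_ ?_).to_re
    · have e1 : Computable (fun x : (ℕ × W) × (ℕ × ℕ × W) => pre x.2.2.1 x.2.2.2) :=
        Q1_c2 pre c1 (Computable.fst.comp (Computable.snd.comp Computable.snd))
          (Computable.snd.comp (Computable.snd.comp Computable.snd))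
      have e2 : Computable (fun x : (ℕ × W) × (ℕ × ℕ × W) => x.2.1) :=
        Computable.fst.comp Computable.snd
      exact Q1_c2 E (Q1_E hX8) e2 (Q1_c2 pre c1 e2 e1)
    · exact Q1_c1 f hf (Q1_c2 pre c1 (Computable.fst.comp Computable.fst)
        (Computable.snd.comp Computable.fst))
  have h2 : REPred (fun x : (ℕ × W) × (ℕ × ℕ × W) => x.2.2.2 ∈ KS) :=
    s2 _ _ (fun x : (ℕ × W) × (ℕ × ℕ × W) => x.2.2.2) (fun z => z ∈ KS)
      (Computable.snd.comp (Computable.snd.comp Computable.snd)) hK1.1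
  have h3 : REPred (fun x : (ℕ × W) × (ℕ × ℕ × W) => ∀ k' < x.2.1, ∃ t, FalL f x.1.1 k' t) := by
    refine s4 _ (fun (x : (ℕ × W) × (ℕ × ℕ × W)) (k' : ℕ) => ∃ t, FalL f x.1.1 k' t) _ ?_
      (Computable.fst.comp Computable.snd)
    refine s3 _ _ (fun (x : ((ℕ × W) × (ℕ × ℕ × W)) × ℕ) (t : ℕ) => FalL f x.1.1.1 x.2 t) ?_
    have e1 : Computable (fun x : (((ℕ × W) × (ℕ × ℕ × W)) × ℕ) × ℕ => (x.1.1.1.1, x.1.2, x.2)) :=
      (Computable.fst.comp (Computable.fst.comp (Computable.fst.comp Computable.fst))).pair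
        ((Computable.snd.comp Computable.fst).pair Computable.snd)
    exact (r2 _ _ _ (fun p : ℕ × ℕ × ℕ => FalL f p.1 p.2.1 p.2.2) e1 hF).to_re
  have h4 : REPred (fun x : (ℕ × W) × (ℕ × ℕ × W) => ∀ k' < x.1.2.length + 1,
      ∀ T' < (f (pre x.1.1 x.1.2)).length,
      (¬ (∃ n < B (f (pre x.1.1 x.1.2)).length, (dw n).length < (f (pre x.1.1 x.1.2)).length ∧
        E k' (pre k' (pre T' (dw n))) = f (pre x.1.1 x.1.2)) ∨ ¬ FalL f x.1.1 x.2.1 T')) := by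
    -- abbreviations
    have v0 : Computable (fun x : (ℕ × W) × (ℕ × ℕ × W) => f (pre x.1.1 x.1.2)) :=
      Q1_c1 f hf (Q1_c2 pre c1 (Computable.fst.comp Computable.fst)
        (Computable.snd.comp Computable.fst))
    have v1 : Computable (fun x : ((ℕ × W) × (ℕ × ℕ × W)) × ℕ => f (pre x.1.1.1 x.1.1.2)) :=
      v0.comp Computable.fst
    have v2 : Computable (fun x : (((ℕ × W) × (ℕ × ℕ × W)) × ℕ) × ℕ =>
      f (pre x.1.1.1.1 x.1.1.1.2)) := v1.comp Computable.fst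
    have v3 : Computable (fun x : ((((ℕ × W) × (ℕ × ℕ × W)) × ℕ) × ℕ) × ℕ =>
      f (pre x.1.1.1.1.1 x.1.1.1.1.2)) := v2.comp Computable.fst
    have k3 : Computable (fun x : ((((ℕ × W) × (ℕ × ℕ × W)) × ℕ) × ℕ) × ℕ => x.1.1.2) :=
      Computable.snd.comp (Computable.fst.comp Computable.fst)
    have t3 : Computable (fun x : ((((ℕ × W) × (ℕ × ℕ × W)) × ℕ) × ℕ) × ℕ => x.1.2) :=
      Computable.snd.comp Computable.fst
    have d3 : Computable (fun x : ((((ℕ × W) × (ℕ × ℕ × W)) × ℕ) × ℕ) × ℕ => dw x.2) :=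
      c5.comp Computable.snd
    have e3 : Computable (fun x : ((((ℕ × W) × (ℕ × ℕ × W)) × ℕ) × ℕ) × ℕ =>
        E x.1.1.2 (pre x.1.1.2 (pre x.1.2 (dw x.2)))) :=
      Q1_c2 E (Q1_E hX8) k3 (Q1_c2 pre c1 k3 (Q1_c2 pre c1 t3 d3))
    have a1 : ComputablePred (fun x : ((((ℕ × W) × (ℕ × ℕ × W)) × ℕ) × ℕ) × ℕ =>
        (dw x.2).length < (f (pre x.1.1.1.1.1 x.1.1.1.1.2)).length) :=
      r5 _ _ _ (c2.comp d3) (c2.comp v3)
    have a2 : ComputablePred (fun x : ((((ℕ × W) × (ℕ × ℕ × W)) × ℕ) × ℕ) × ℕ =>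
        E x.1.1.2 (pre x.1.1.2 (pre x.1.2 (dw x.2))) = f (pre x.1.1.1.1.1 x.1.1.1.1.2)) :=
      r4 _ _ _ _ e3 v3
    have a3 := (r1 _ _ _ a1 a2).1
    have a4 := (r3 _ (fun (x : (((ℕ × W) × (ℕ × ℕ × W)) × ℕ) × ℕ) (n : ℕ) =>
      (dw n).length < (f (pre x.1.1.1.1 x.1.1.1.2)).length ∧
        E x.1.2 (pre x.1.2 (pre x.2 (dw n))) = f (pre x.1.1.1.1 x.1.1.1.2))
      (fun x => B (f (pre x.1.1.1.1 x.1.1.1.2)).length) a3
      (Q1_c1 B hB (Q1_c1 (fun x : W => x.length) c2 v2))).2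
    have a5 := (r1 _ _ _ a4 a4).2.2
    have b1 : Computable (fun x : (((ℕ × W) × (ℕ × ℕ × W)) × ℕ) × ℕ =>
        (x.1.1.1.1, x.1.1.2.1, x.2)) :=
      (Computable.fst.comp (Computable.fst.comp (Computable.fst.comp Computable.fst))).pair
        ((Computable.fst.comp (Computable.snd.comp (Computable.fst.comp Computable.fst))).pair
          Computable.snd)
    have b2 := r2 _ _ _ (fun p : ℕ × ℕ × ℕ => FalL f p.1 p.2.1 p.2.2) b1 hF
    have b3 := (r1 _ _ _ b2 b2).2.2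
    have a6 := (r1 _ _ _ a5 b3).2.1
    have a7 := (r3 _ (fun (x : ((ℕ × W) × (ℕ × ℕ × W)) × ℕ) (T' : ℕ) =>
      (¬ (∃ n < B (f (pre x.1.1.1 x.1.1.2)).length,
        (dw n).length < (f (pre x.1.1.1 x.1.1.2)).length ∧
        E x.2 (pre x.2 (pre T' (dw n))) = f (pre x.1.1.1 x.1.1.2)) ∨ ¬ FalL f x.1.1.1 x.1.2.1 T'))
      (fun x => (f (pre x.1.1.1 x.1.1.2)).length) a6
      (Q1_c1 (fun x : W => x.length) c2 v1)).1
    have hl : Computable (fun x : (ℕ × W) × (ℕ × ℕ × W) => x.1.2.length + 1) :=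
      Computable.succ.comp (Q1_c1 (fun x : W => x.length) c2 (Computable.snd.comp Computable.fst))
    exact ((r3 _ (fun (x : (ℕ × W) × (ℕ × ℕ × W)) (k' : ℕ) =>
      ∀ T' < (f (pre x.1.1 x.1.2)).length,
      (¬ (∃ n < B (f (pre x.1.1 x.1.2)).length, (dw n).length < (f (pre x.1.1 x.1.2)).length ∧
        E k' (pre k' (pre T' (dw n))) = f (pre x.1.1 x.1.2)) ∨ ¬ FalL f x.1.1 x.2.1 T'))
      (fun x => x.1.2.length + 1) a7 hl).1).to_re
  have h5 := (s1 _ _ _ h1 (s1 _ _ _ h2 (s1 _ _ _ h3 h4).1).1).1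
  have h6 := s3 (ℕ × W) (ℕ × ℕ × W) (fun (p : ℕ × W) (q : ℕ × ℕ × W) =>
    E q.1 (pre q.1 (pre q.2.1 q.2.2)) = f (pre p.1 p.2) ∧ q.2.2 ∈ KS ∧
    (∀ k' < q.1, ∃ t, FalL f p.1 k' t) ∧ ∀ k' < p.2.length + 1,
      ∀ T' < (f (pre p.1 p.2)).length,
      (¬ (∃ n < B (f (pre p.1 p.2)).length, (dw n).length < (f (pre p.1 p.2)).length ∧
        E k' (pre k' (pre T' (dw n))) = f (pre p.1 p.2)) ∨ ¬ FalL f p.1 q.1 T')) h5
  refine h6.of_eq fun p => ?_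
  constructor
  · rintro ⟨⟨k, T, z⟩, g1, g2, g3, g4⟩
    refine ⟨k, T, z, g1, g2, g3, fun k' hk' T' hT' hz => ?_⟩
    rcases g4 k' hk' T' hT' with h | h
    · obtain ⟨z', hz1, hz2⟩ := hz
      refine absurd ⟨enc z', hB' z' _ hz1.le, ?_⟩ h
      rw [c6]
      exact ⟨hz1, hz2⟩
    · exact h
  · rintro ⟨k, T, z, g1, g2, g3, g4⟩
    refine ⟨(k, T, z), g1, g2, g3, fun k' hk' T' hT' => ?_⟩
    by_cases h : ∃ n < B (f (pre p.1 p.2)).length, (dw n).length < (f (pre p.1 p.2)).length ∧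
        E k' (pre k' (pre T' (dw n))) = f (pre p.1 p.2)
    · obtain ⟨n, -, hn1, hn2⟩ := h
      exact Or.inr (g4 k' hk' T' hT' ⟨dw n, hn1, hn2⟩)
    · exact Or.inl h

end Pool.Agent.RI
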