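import Pool.Agent.helper55.RI.LiDefs

/-!
# Length-increasing completeness: the main argument
-/

set_option autoImplicit false

namespace Pool.Agent.RI

open Pool.Agent.helper62 Prog Function Pool.Agent.helper81.PL

theorem L3_dw (x : W) : dw (enc x) = x := by
  unfold dw enc
  rw [Encodable.encodek]
  rfl

theorem L3_mono (f : W → W) (b k t t' : ℕ) (h : t ≤ t') (hF : FalL f b k t) : FalL f b k t' := by
  obtain ⟨n, hn, h1⟩ := hF
  exact ⟨n, lt_of_lt_of_le hn h, h1⟩

/-- A common time for finitely many falsified indices. -/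
theorem L3_time (f : W → W) (b K : ℕ) (h : ∀ k < K, ∃ t, FalL f b k t) :
    ∃ T, ∀ k < K, FalL f b k T := by
  induction K with
  | zero => exact ⟨0, fun k hk => absurd hk (Nat.not_lt_zero k)⟩
  | succ K ih =>
    obtain ⟨T, hT⟩ := ih (fun k hk => h k (Nat.lt_succ_of_lt hk))
    obtain ⟨t, ht⟩ := h K (Nat.lt_succ_self K)
    refine ⟨max T t, fun k hk => ?_⟩
    rcases Nat.lt_succ_iff_lt_or_eq.1 hk with h' | h'
    · exact L3_mono f b k _ _ (le_max_left _ _) (hT k h')
    · subst h'
      exact L3_mono f b k _ _ (le_max_right _ _) ht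

/-- A never falsified index. -/
theorem L3_nf (f : W → W) (b k : ℕ) (h : ∀ t, ¬ FalL f b k t) :
    Li (E k) ∧ Injective (E k) ∧ ∀ z, ∃ y, f (pre b y) = E k z := by
  refine ⟨fun z => ?_, ?_, fun z => ?_⟩
  · by_contra hz
    refine h (enc z + 1) ⟨enc z, Nat.lt_succ_self _, Or.inl ?_⟩
    rw [L3_dw]
    exact hz
  · have key : ∀ z z' : W, enc z' < enc z → E k z' ≠ E k z := by
      intro z z' hlt he
      refine h (enc z + 1) ⟨enc z, Nat.lt_succ_self _, Or.inr (Or.inl ⟨enc z', hlt, ?_, ?_⟩)⟩
      · rw [L3_dw, L3_dw]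
        rintro rfl
        exact lt_irrefl _ hlt
      · rw [L3_dw, L3_dw]
        exact he
    intro z z' hzz
    rcases lt_trichotomy (enc z) (enc z') with h1 | h1 | h1
    · exact absurd hzz (key z' z h1)
    · have := congrArg dw h1
      rwa [L3_dw, L3_dw] at this
    · exact absurd hzz.symm (key z z' h1)
  · by_contra hz
    push Not at hz
    refine h (enc z + 1) ⟨enc z, Nat.lt_succ_self _, Or.inr (Or.inr ?_)⟩
    rw [L3_dw]
    exact hz

theorem L3 (hX9 : X9_stmt) (hK2 : K2_stmt) (hK3 : K3_stmt) : L3_stmt := by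
  classical
  intro A f b hf hfi hfA hb ⟨g, hg, hgi, hgl, hgr⟩
  obtain ⟨pPT, pinj, plen, strip, sPT, hs⟩ := hK3
  -- a never falsified index
  have hex : ∃ k, ∀ t, ¬ FalL f b k t := by
    obtain ⟨k1, h1⟩ := hX9.2 g hg
    refine ⟨k1, ?_⟩
    rintro t ⟨n, -, h | ⟨n', -, h, h'⟩ | h⟩
    · rw [h1] at h
      exact h (hgl _)
    · rw [h1] at h'
      exact h (hgi h')
    · rw [h1] at h
      obtain ⟨y, hy⟩ := hgr (dw n)
      exact h y hy
  set k := Nat.find hex with hk
  have hNF : ∀ t, ¬ FalL f b k t := Nat.find_spec hex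
  have hlt : ∀ k' < k, ∃ t, FalL f b k' t := by
    intro k' hk'
    have := Nat.find_min hex hk'
    push Not at this
    exact this
  obtain ⟨T, hT⟩ := L3_time f b k hlt
  obtain ⟨hli, hinj, hrg⟩ := L3_nf f b k hNF
  have hchoose : ∀ z : W, ∃ y, f (pre b y) = E k (pre k (pre T z)) := fun z => hrg _
  choose y hy using hchoose
  have yinj : Injective y := by
    intro z z' h
    have h1 := hy z
    rw [h, hy z'] at h1
    exact ((pinj _ _ _ _ (pinj _ _ _ _ (hinj h1)).2).2).symm
  -- the claim
  have claim : ∀ z, k ≤ (y z).length → (z ∈ KS ↔ E k (pre k (pre T z)) ∈ A) := by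
    intro z hz
    have hlen := hli (pre k (pre T z))
    rw [← hy z, plen, plen] at hlen
    rw [← hy z, ← hfA, hb]
    constructor
    · intro hzK
      exact ⟨k, T, z, (hy z).symm, hzK, hlt, fun k' _ T' _ _ => hNF T'⟩
    · rintro ⟨k1, T1, z1, h1, h2, h3, h4⟩
      have hle : k1 ≤ k := by
        by_contra hc
        obtain ⟨t, ht⟩ := h3 k (by omega)
        exact hNF t ht
      rcases Nat.lt_or_ge k1 k with hlt' | hge
      · exfalso
        exact h4 k (by omega) T (by omega) ⟨z, by omega, (hy z).symm⟩ (hT k1 hlt')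
      · have hkk : k1 = k := le_antisymm hle hge
        subst hkk
        rw [hy] at h1
        have := (pinj _ _ _ _ (pinj _ _ _ _ (hinj h1)).2).2
        rw [← this]
        exact h2
  -- finitely many exceptions
  have hfin : {z : W | (y z).length < k}.Finite := by
    have : {z : W | (y z).length < k} = y ⁻¹' {w : W | w.length < k} := rfl
    rw [this]
    exact Set.Finite.preimage yinj.injOn (List.finite_length_lt Bool k)
  obtain ⟨N, hN⟩ : ∃ N, ∀ z : W, (y z).length < k → z.length < N := by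
    obtain ⟨N, hN⟩ := (hfin.image List.length).bddAbove
    refine ⟨N + 1, fun z hz => ?_⟩
    have := hN (Set.mem_image_of_mem _ hz)
    omega
  obtain ⟨a, ha⟩ := hK2.2
  have gPT : PT (E k) := hX9.1 _
  have preC : ∀ (j : ℕ) (h : W → W), PT h → PT (fun z => pre j (h z)) := by
    intro j h hh
    exact PT.comp (g := fun p : ℕ × W => pre p.1 p.2) (f := fun z => (j, h z)) pPT
      (PT.pair (PT.const j) hh)
  refine ⟨fun z => E k (pre k (pre T (pre a (pre N z)))), ?_, ?_, ?_, ?_⟩
  · exact PT.comp gPT (preC _ _ (preC _ _ (preC _ _ (preC _ _ PT.id))))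
  · intro z z' h
    exact (pinj _ _ _ _ (pinj _ _ _ _ (pinj _ _ _ _ (pinj _ _ _ _ (hinj h)).2).2).2).2
  · intro z
    have h := hli (pre k (pre T (pre a (pre N z))))
    rw [plen, plen, plen, plen] at h
    show z.length < (E k (pre k (pre T (pre a (pre N z))))).length
    omega
  · intro z
    have hz : k ≤ (y (pre a (pre N z))).length := by
      by_contra hc
      have := hN (pre a (pre N z)) (not_le.1 hc)
      rw [plen, plen] at this
      omega
    rw [← claim _ hz, ha]

end Pool.Agent.RI
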