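import Pool.Agent.helper55.RI.Spec

/-!
# Length-increasing completeness: definitions of the decoder
-/

set_option autoImplicit false

namespace Pool.Agent.RI

open Pool.Agent.helper62 Prog Function Pool.Agent.helper81.PL

/-- length-increasing functions -/
def Li (g : W → W) : Prop := ∀ x : W, x.length < (g x).length

/-- The index `k` is falsified before `t`: `E k` is not length-increasing, or not one-one, or takes
a value outside of the range of `f (pre b ·)`. -/
def FalL (f : W → W) (b k t : ℕ) : Prop :=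
  ∃ n < t, ¬ (dw n).length < (E k (dw n)).length ∨
    (∃ n' < n, dw n' ≠ dw n ∧ E k (dw n') = E k (dw n)) ∨ ∀ y : W, f (pre b y) ≠ E k (dw n)

/-- what the program `b` accepts -/
def QL (f : W → W) (b : ℕ) (y : W) : Prop :=
  ∃ (k T : ℕ) (z : W), E k (pre k (pre T z)) = f (pre b y) ∧ z ∈ KS ∧
    (∀ k' < k, ∃ t, FalL f b k' t) ∧
    ∀ k' < y.length + 1, ∀ T' < (f (pre b y)).length,
      (∃ z' : W, z'.length < (f (pre b y)).length ∧ E k' (pre k' (pre T' z')) = f (pre b y)) →
        ¬ FalL f b k T'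

/-- `FalL` is decidable. -/
def L1_stmt : Prop := ∀ f : W → W, Computable f → (∀ x, x.length < 2 ^ (f x).length) →
  ComputablePred (fun p : ℕ × ℕ × ℕ => FalL f p.1 p.2.1 p.2.2)

/-- `QL` is r.e. -/
def L2_stmt : Prop := ∀ f : W → W, Computable f → (∀ x, x.length < 2 ^ (f x).length) →
  REPred (fun p : ℕ × W => QL f p.1 p.2)

/-- The main argument. -/
def L3_stmt : Prop := ∀ (A : Set W) (f : W → W) (b : ℕ), PT f → Injective f → (∀ x, x ∈ KS ↔ f x ∈ A) →
  (∀ y, pre b y ∈ KS ↔ QL f b y) →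
  (∃ g : W → W, PT g ∧ Injective g ∧ Li g ∧ ∀ z, ∃ y, f (pre b y) = g z) →
  ∃ e : W → W, PT e ∧ Injective e ∧ Li e ∧ ∀ z, z ∈ KS ↔ e z ∈ A

end Pool.Agent.RI
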