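import Pool.Agent.helper55.RI.Spec

/-!
# Module X5: Mathlib's polynomial time machines are in the library
-/

set_option autoImplicit false
set_option linter.unusedVariables false
set_option linter.unusedSectionVars false

namespace Pool.Agent.RI

open Pool.Agent.helper62 Prog Function Pool.Agent.helper81.PL

section

variable {K : Type} [DecidableEq K] {Γ : K → Type} {Λ σ : Type}

/-- `Good` for a family of sets of symbols -/
def X5_Good (G : ∀ k, Set (Γ k)) : Turing.TM2.Stmt Γ Λ σ → Prop
  | .push k f q => (∀ v, f v ∈ G k) ∧ X5_Good G q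
  | .peek _ _ q => X5_Good G q
  | .pop _ _ q => X5_Good G q
  | .load _ q => X5_Good G q
  | .branch _ q q' => X5_Good G q ∧ X5_Good G q'
  | .goto _ => True
  | .halt => True

lemma X5_good_iff (n : Num K Γ Λ σ) (q : Turing.TM2.Stmt Γ Λ σ) :
    n.Good q ↔ X5_Good n.G q := by
  induction q with
  | push k f q ih => simp [Num.Good, X5_Good, ih]
  | peek k f q ih => simp [Num.Good, X5_Good, ih]
  | pop k f q ih => simp [Num.Good, X5_Good, ih]
  | load f q ih => simp [Num.Good, X5_Good, ih]
  | branch f q q' ih ih' => simp [Num.Good, X5_Good, ih, ih']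
  | goto f => simp [Num.Good, X5_Good]
  | halt => simp [Num.Good, X5_Good]

lemma X5_good_mono (G G' : ∀ k, Set (Γ k)) (h : ∀ k, G k ⊆ G' k) (q : Turing.TM2.Stmt Γ Λ σ) :
    X5_Good G q → X5_Good G' q := by
  induction q with
  | push k f q ih => exact fun hq => ⟨fun v => h k (hq.1 v), ih hq.2⟩
  | peek k f q ih => exact ih
  | pop k f q ih => exact ih
  | load f q ih => exact ih
  | branch f q q' ih ih' => exact fun hq => ⟨ih hq.1, ih' hq.2⟩
  | goto f => exact fun _ => trivial
  | halt => exact fun _ => trivial

lemma X5_good_ex [Finite σ] (q : Turing.TM2.Stmt Γ Λ σ) :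
    ∃ G : ∀ k, Set (Γ k), (∀ k, (G k).Finite) ∧ X5_Good G q := by
  induction q with
  | push k f q ih =>
    obtain ⟨G, h1, h2⟩ := ih
    refine ⟨update G k (G k ∪ Set.range f), fun k' => ?_, ?_, ?_⟩
    · by_cases hk : k' = k
      · subst hk
        rw [update_self]
        exact (h1 _).union (Set.finite_range f)
      · rw [update_of_ne hk]
        exact h1 k'
    · intro v
      rw [update_self]
      exact Or.inr ⟨v, rfl⟩
    · refine X5_good_mono G _ (fun k' => ?_) q h2
      by_cases hk : k' = k
      · subst hk
        rw [update_self]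
        exact Set.subset_union_left
      · rw [update_of_ne hk]
  | peek k f q ih => exact ih
  | pop k f q ih => exact ih
  | load f q ih => exact ih
  | branch f q q' ih ih' =>
    obtain ⟨G, h1, h2⟩ := ih
    obtain ⟨G', h1', h2'⟩ := ih'
    exact ⟨fun k => G k ∪ G' k, fun k => (h1 k).union (h1' k),
      X5_good_mono G _ (fun k => Set.subset_union_left) q h2,
      X5_good_mono G' _ (fun k => Set.subset_union_right) q' h2'⟩
  | goto f => exact ⟨fun _ => ∅, fun _ => Set.finite_empty, trivial⟩
  | halt => exact ⟨fun _ => ∅, fun _ => Set.finite_empty, trivial⟩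

lemma X5_good_all [Finite σ] [Finite Λ] (m : Λ → Turing.TM2.Stmt Γ Λ σ) :
    ∃ G : ∀ k, Set (Γ k), (∀ k, (G k).Finite) ∧ (∀ k, Finite (Γ k) → G k = Set.univ) ∧
      ∀ l, X5_Good G (m l) := by
  choose G h1 h2 using fun l => X5_good_ex (m l)
  refine ⟨fun k => (⋃ l, G l k) ∪ {g | Finite (Γ k)}, fun k => ?_, fun k hk => ?_, fun l => ?_⟩
  · refine (Set.finite_iUnion fun l => h1 l k).union ?_
    by_cases hk : Finite (Γ k)
    · exact Set.toFinite _
    · simp [hk]
  · ext g
    simp [hk]
  · exact X5_good_mono (G l) _ (fun k => (Set.subset_iUnion (fun l => G l k) l).trans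
      Set.subset_union_left) (m l) (h2 l)

/-- numberings exist -/
lemma X5_num [Finite K] [Finite Λ] [Finite σ] (G : ∀ k, Set (Γ k)) (hG : ∀ k, (G k).Finite) :
    ∃ n : Num K Γ Λ σ, n.G = G := by
  classical
  obtain ⟨a, ⟨ek⟩⟩ := Finite.exists_equiv_fin K
  obtain ⟨b, ⟨el⟩⟩ := Finite.exists_equiv_fin (Option Λ)
  obtain ⟨c, ⟨es⟩⟩ := Finite.exists_equiv_fin σ
  have h1 : ∀ k, ∃ f : Γ k → ℕ, Set.InjOn f (G k) := fun k =>
    Set.countable_iff_exists_injOn.mp (hG k).countable
  choose ng hng using h1
  have h2 : (⋃ k, ng k '' G k).Finite := Set.finite_iUnion fun k => (hG k).image _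
  obtain ⟨M, hM⟩ := h2.bddAbove
  refine ⟨{ N := a + b + c + M + 1
            nk := fun k => ek k
            nl := fun l => el l
            ns := fun s => es s
            ng := ng
            G := G
            injk := fun x y h => ek.injective (Fin.ext h)
            injl := fun x y h => el.injective (Fin.ext h)
            injs := fun x y h => es.injective (Fin.ext h)
            injg := hng
            ltk := fun k => by have := (ek k).2; omega
            ltl := fun l => by have := (el l).2; omega
            lts := fun s => by have := (es s).2; omega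
            ltg := fun k g hg => by
              have : ng k g ≤ M := hM (Set.mem_iUnion.mpr ⟨k, ⟨g, hg, rfl⟩⟩)
              omega }, rfl⟩

end

/-- polynomials in unary -/
lemma X5_poly (p : Polynomial ℕ) : PT (fun n : ℕ => p.eval n) := by
  induction p using Polynomial.induction_on' with
  | add p q hp hq =>
    have : PT (fun n : ℕ => p.eval n + q.eval n) := by fun_prop
    simpa using this
  | monomial n a =>
    have h : ∀ k : ℕ, PT (fun n : ℕ => n ^ k) := by
      intro k
      induction k with
      | zero => simpa using (PT.const (1 : ℕ) : PT (fun _ : ℕ => 1))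
      | succ k ih =>
        have : PT (fun n : ℕ => n ^ k * n) := by fun_prop
        simpa [pow_succ] using this
    have h1 := h n
    have : PT (fun m : ℕ => a * m ^ n) := by fun_prop
    simpa using this

theorem X5 (hX4 : X4_stmt) : X5_stmt := by
  intro f ⟨M⟩
  classical
  have : Finite M.tm.Λ := @Finite.of_fintype _ M.tm.ΛFin
  have : Finite M.tm.σ := @Finite.of_fintype _ M.tm.σFin
  have : Finite M.tm.K := @Finite.of_fintype _ M.tm.kFin
  have : Finite (M.tm.Γ M.tm.k₀) := Finite.of_equiv Bool M.inputAlphabet.symm
  have : Finite (M.tm.Γ M.tm.k₁) := Finite.of_equiv Bool M.outputAlphabet.symm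
  obtain ⟨G, hG1, hG2, hG3⟩ := X5_good_all M.tm.m
  obtain ⟨n, hn⟩ := X5_num (Λ := M.tm.Λ) (σ := M.tm.σ) G hG1
  have hgood : ∀ l, n.Good (M.tm.m l) := fun l => by
    rw [X5_good_iff, hn]
    exact hG3 l
  obtain ⟨s, hs, C, hsC⟩ := hX4 M.tm.K M.tm.Γ M.tm.Λ M.tm.σ n M.tm.m hgood
  -- the initial configuration
  set num0 : Bool → ℕ := fun b => n.ng M.tm.k₀ (M.inputAlphabet.symm b) with hnum0
  set d0 : W → ℕ × ℕ × List (List ℕ) := fun w =>
    (n.nl (some M.tm.main), n.ns M.tm.initialState,
      List.replicate (n.nk M.tm.k₀) [] ++ (w.map num0) ::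
        List.replicate (n.N - n.nk M.tm.k₀ - 1) []) with hd0
  have hPTnum0 : PT (fun b : Bool => bif b then num0 true else num0 false) := by fun_prop
  have hPT0 : PT num0 := by
    convert hPTnum0 using 2 with b
    cases b <;> rfl
  have hd0PT : PT d0 := by
    have h1 : PT (fun w : W => w.map num0) :=
      pt_map (α := W) (f := fun _ b => num0 b) (PT.comp hPT0 (by fun_prop)) (by fun_prop)
    have h2 : PT (fun w : W => List.replicate (n.nk M.tm.k₀) ([] : List ℕ) ++ (w.map num0) ::
        List.replicate (n.N - n.nk M.tm.k₀ - 1) []) := by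
      have h3 : PT (fun w : W => (w.map num0) ::
          List.replicate (n.N - n.nk M.tm.k₀ - 1) ([] : List ℕ)) := by fun_prop
      exact PT.comp (f := fun w : W => (List.replicate (n.nk M.tm.k₀) ([] : List ℕ),
        (w.map num0) :: List.replicate (n.N - n.nk M.tm.k₀ - 1) ([] : List ℕ))) pt_append
        (PT.pair (PT.const _) h3)
    exact PT.pair (PT.const _) (PT.pair (PT.const _) h2)
  -- the clock
  have hT : PT (fun w : W => M.time.eval w.length) := PT.comp (X5_poly M.time) (by fun_prop)
  -- the machine
  set c0 : W → M.tm.Cfg := fun w => Turing.initList M.tm (w.map M.inputAlphabet.invFun) with hc0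
  have hR0 : ∀ w, n.Rp (c0 w) (d0 w) := by
    intro w
    have hlt := n.ltk M.tm.k₀
    refine ⟨rfl, rfl, ?_, ?_, ?_⟩
    · simp only [hd0, List.length_append, List.length_replicate, List.length_cons]
      omega
    · intro k
      by_cases hk : k = M.tm.k₀
      · subst hk
        have e1 : (c0 w).stk M.tm.k₀ = w.map M.inputAlphabet.invFun := by
          simp [hc0, Turing.initList]
        rw [e1]
        simp only [hd0]
        rw [List.getD_append_right _ _ _ _ (by simp)]
        simp [hnum0]
      · have e1 : (c0 w).stk k = [] := by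
          simp [hc0, Turing.initList, hk]
        rw [e1]
        have hne : n.nk k ≠ n.nk M.tm.k₀ := fun h => hk (n.injk h)
        have hlt' := n.ltk k
        simp only [hd0, List.map_nil]
        rcases lt_or_gt_of_ne hne with h | h
        · rw [List.getD_append _ _ _ _ (by simpa using h), List.getD_replicate _ h]
        · rw [List.getD_append_right _ _ _ _ (by simpa using h.le)]
          obtain ⟨j, hj⟩ : ∃ j, n.nk k - (List.replicate (n.nk M.tm.k₀) ([] : List ℕ)).length =
              j + 1 := ⟨n.nk k - n.nk M.tm.k₀ - 1, by simp; omega⟩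
          rw [hj, List.getD_cons_succ, List.getD_replicate]
          simp at hj
          omega
    · intro k g hg
      rw [hn]
      by_cases hk : k = M.tm.k₀
      · subst hk
        rw [hG2 _ inferInstance]
        trivial
      · have e1 : (c0 w).stk k = [] := by
          simp [hc0, Turing.initList, hk]
        rw [e1] at hg
        simp at hg
  have hrun : ∀ (i : ℕ) (w : W) (c : M.tm.Cfg),
      (flip bind M.tm.step)^[i] (some (c0 w)) = some c →
      n.Rp c (s^[i] (d0 w)) ∧ ∀ j ≤ i, sz (s^[j] (d0 w)) ≤ sz (d0 w) + j * C := by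
    intro i
    induction i with
    | zero =>
      intro w c hc
      simp only [iterate_zero, id_eq, Option.some.injEq] at hc
      subst hc
      refine ⟨hR0 w, fun j hj => ?_⟩
      obtain rfl : j = 0 := by omega
      simp
    | succ i ih =>
      intro w c hc
      rw [iterate_succ_apply'] at hc
      cases h1 : (flip bind M.tm.step)^[i] (some (c0 w)) with
      | none =>
        rw [h1] at hc
        simp [flip] at hc
      | some c' =>
        rw [h1] at hc
        have h2 : Turing.TM2.step M.tm.m c' = some c := hc
        obtain ⟨h3, h4⟩ := ih w c' h1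
        obtain ⟨h5, h6⟩ := (hsC c' _ h3).2 c h2
        rw [iterate_succ_apply']
        refine ⟨h5, fun j hj => ?_⟩
        rcases Nat.lt_or_ge j (i + 1) with h | h
        · exact h4 j (by omega)
        · obtain rfl : j = i + 1 := by omega
          rw [iterate_succ_apply']
          have := h4 i le_rfl
          rw [Nat.add_mul, one_mul]
          omega
  have hfin : ∀ w : W, n.Rp (Turing.haltList M.tm ((f w).map M.outputAlphabet.invFun))
      (s^[M.time.eval w.length] (d0 w)) ∧
      ∀ j, sz (s^[j] (d0 w)) ≤ sz (d0 w) + M.time.eval w.length * C := by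
    intro w
    have hout := M.outputsFun w
    obtain ⟨⟨steps, hev⟩, hle⟩ := hout
    simp only [id_eq] at hev hle
    have hle' : steps ≤ M.time.eval w.length := hle
    have h1 := hrun steps w _ hev
    have h2 : Turing.TM2.step M.tm.m
        (Turing.haltList M.tm ((f w).map M.outputAlphabet.invFun)) = none := rfl
    have h3 := (hsC _ _ h1.1).1 h2
    have h4 : ∀ j, steps ≤ j → s^[j] (d0 w) = s^[steps] (d0 w) := by
      intro j hj
      obtain ⟨t, rfl⟩ := Nat.exists_eq_add_of_le hj
      rw [add_comm, iterate_add_apply]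
      exact iterate_fixed h3 t
    refine ⟨?_, fun j => ?_⟩
    · rw [h4 _ hle']
      exact h1.1
    · rcases le_total j steps with h | h
      · exact (h1.2 j h).trans (Nat.add_le_add_left (Nat.mul_le_mul_right _ (h.trans hle')) _)
      · rw [h4 _ h]
        exact (h1.2 steps le_rfl).trans (Nat.add_le_add_left (Nat.mul_le_mul_right _ hle') _)
  have hiter : PT (fun w : W => s^[M.time.eval w.length] (d0 w)) := by
    refine pt_iter (α := W) (n := fun w => M.time.eval w.length) (g := d0) (s := fun _ d => s d)
      (c := fun w => sz (d0 w) + M.time.eval w.length * C) hT hd0PT (PT.comp hs (by fun_prop))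
      (hd0PT.size.add (hT.nat_pb.mul (PB.const C))) (fun w i _ => (hfin w).2 i)
  -- the result
  set dec : ℕ → Bool := fun x => eqb x (n.ng M.tm.k₁ (M.outputAlphabet.symm true)) with hdec
  have hdecPT : PT dec := by fun_prop
  have hdec1 : ∀ b, dec (n.ng M.tm.k₁ (M.outputAlphabet.symm b)) = b := by
    intro b
    have hinj : Set.InjOn (n.ng M.tm.k₁) (n.G M.tm.k₁) := n.injg _
    rw [hn, hG2 _ inferInstance] at hinj
    cases b with
    | true => simp [hdec, eqb]
    | false =>
      simp only [hdec, eqb, decide_eq_false_iff_not]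
      intro h
      have := M.outputAlphabet.symm.injective (hinj (Set.mem_univ _) (Set.mem_univ _) h)
      simp at this
  have hres : ∀ w, f w = ((s^[M.time.eval w.length] (d0 w)).2.2.getD (n.nk M.tm.k₁) []).map dec := by
    intro w
    have h1 := (hfin w).1.2.2.2.1 M.tm.k₁
    rw [h1]
    have e1 : (Turing.haltList M.tm ((f w).map M.outputAlphabet.invFun)).stk M.tm.k₁ =
        (f w).map M.outputAlphabet.invFun := by
      simp [Turing.haltList]
    rw [e1, List.map_map, List.map_map]
    conv_lhs => rw [← List.map_id (f w)]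
    refine List.map_congr_left fun b _ => ?_
    exact (hdec1 b).symm
  have hfinal : PT (fun w : W =>
      ((s^[M.time.eval w.length] (d0 w)).2.2.getD (n.nk M.tm.k₁) []).map dec) := by
    have h1 : PT (fun w : W => (s^[M.time.eval w.length] (d0 w)).2.2.getD (n.nk M.tm.k₁) []) :=
      PT.comp (f := fun w : W => ((s^[M.time.eval w.length] (d0 w)).2.2, n.nk M.tm.k₁, []))
        pt_getD (PT.pair (PT.comp pt_snd (PT.comp pt_snd hiter)) (PT.const _))
    exact pt_map (α := W) (f := fun _ x => dec x) (PT.comp hdecPT (by fun_prop)) h1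
  have e : f = fun w : W =>
      ((s^[M.time.eval w.length] (d0 w)).2.2.getD (n.nk M.tm.k₁) []).map dec := funext hres
  rw [e]
  exact hfinal

end Pool.Agent.RI
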