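import Pool.Agent.helper55.RI.F3
import Pool.Agent.helper55.RI.X5

/-!
# The assembly: complete sets and scrambling functions
-/

set_option autoImplicit false

namespace Pool.Agent.RI

open Pool.Agent.helper62 Prog Function Pool.Agent.helper81.PL

/-- natural complete r.e. sets (Hartmanis): every r.e. set reduces to `C` by a one-one function which
is computable in polynomial time together with its inverse -/
def NatComplete (C : Set W) : Prop :=
  RE C ∧ ∀ A : Set W, RE A → ∃ g : W → W, PInv g ∧ ∀ x, x ∈ A ↔ g x ∈ C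

/-- honesty: the length of `f x` is more than `k` times the binary logarithm of `|x| + 1` -/
def Hon (k : ℕ) (f : W → W) : Prop := ∀ x : W, (x.length + 1) ^ k < 2 ^ (f x).length

section

variable (hF1 : F1_stmt) (hK1 : K1_stmt) (hK2 : K2_stmt) (hK3 : K3_stmt) (hR2 : R2_stmt)
  (hR3 : R3_stmt) (hR5 : R5_stmt) (hB4 : B4_stmt)

include hF1 in
theorem M_comp {f g : W → W} (hf : PTime f) (hg : PTime g) : PTime (fun x => f (g x)) :=
  (hF1.1 _).2 (PT.comp ((hF1.1 f).1 hf) ((hF1.1 g).1 hg))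

include hF1 in
theorem M_trans {A B C : Set W} (h1 : PIso A B) (h2 : PIso B C) : PIso A C := by
  obtain ⟨h, g, hh, hg, hgh, hhg, hm⟩ := h1
  obtain ⟨h', g', hh', hg', hgh', hhg', hm'⟩ := h2
  refine ⟨fun x => h' (h x), fun x => g (g' x), M_comp hF1 hh' hh, M_comp hF1 hg hg', fun x => ?_,
    fun x => ?_, fun x => ?_⟩
  · show g (g' (h' (h x))) = x
    rw [hgh', hgh]
  · show h' (h (g (g' x))) = x
    rw [hhg, hhg']
  · rw [hm, hm']

theorem M_symm {A B : Set W} (h1 : PIso A B) : PIso B A := by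
  obtain ⟨h, g, hh, hg, hgh, hhg, hm⟩ := h1
  exact ⟨g, h, hg, hh, hhg, hgh, fun x => by rw [hm (g x), hhg]⟩

include hF1 hK3 in
theorem M_pre (a : ℕ) : PInv (pre a) := by
  obtain ⟨hpre, -, -, strip, hs, hsp⟩ := hK3
  have h1 : PT (pre a) := PT.comp (g := fun p : ℕ × W => pre p.1 p.2) (f := fun y : W => (a, y)) hpre
    (PT.pair (PT.const a) PT.id)
  exact ⟨(hF1.1 _).2 h1, strip, (hF1.1 _).2 hs, fun x => hsp a x⟩

include hF1 hK1 hK2 hK3 in
theorem M_KS : NatComplete KS := by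
  refine ⟨hK1.1, fun A hA => ?_⟩
  obtain ⟨a, ha⟩ := hK2.1 A hA
  exact ⟨pre a, M_pre hF1 hK3 a, ha⟩

theorem M_complete {C : Set W} (h : NatComplete C) : Complete C :=
  ⟨h.1, fun A hA => (h.2 A hA).imp fun g hg => ⟨hg.1.1, hg.2⟩⟩

include hF1 hK1 hB4 in
theorem M_iso {C : Set W} (h : NatComplete C) : PIso KS C := by
  obtain ⟨g, ⟨hg, m, hm, hmg⟩, hgC⟩ := h.2 KS hK1.1
  obtain ⟨h1, g1, hh1, hg1, a1, a2, a3⟩ := hB4 C h.1 ⟨g, m, (hF1.1 g).1 hg, (hF1.1 m).1 hm, hmg, hgC⟩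
  exact ⟨h1, g1, (hF1.1 _).2 hh1, (hF1.1 _).2 hg1, a1, a2, a3⟩

/-- padding: honesty with a factor -/
def M_pad (k : ℕ) (x : W) : W := pre ((x.length + 1) ^ k) x

theorem M_pow (k : ℕ) : PT (fun n : ℕ => (n + 1) ^ k) := by
  have := X5_poly ((Polynomial.X + 1) ^ k)
  simpa using this

include hK3 in
theorem M_pad_PT (k : ℕ) : PT (M_pad k) := by
  have h0 : PT (fun x : W => (x.length + 1) ^ k) :=
    PT.comp (f := fun x : W => x.length) (M_pow k) (by fun_prop)
  exact PT.comp (f := fun x : W => ((x.length + 1) ^ k, x)) hK3.1 (PT.pair h0 PT.id)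

include hF1 hK3 in
/-- Exponential honesty can be replaced by honesty with a factor. -/
theorem M_honest (k : ℕ) (P : (W → W) → Prop)
    (h : ∀ f : W → W, PTime f → Injective f → Hon k f → ∃ g, P g ∧ Set.range g ⊆ Set.range f)
    (f : W → W) (hf : PTime f) (hi : Injective f) (hl : ∀ x, x.length < 2 ^ (f x).length) :
    ∃ g, P g ∧ Set.range g ⊆ Set.range f := by
  have h1 : PT (M_pad k) := M_pad_PT hK3 k
  obtain ⟨g, hg, hr⟩ := h (fun x => f (M_pad k x)) (M_comp hF1 hf ((hF1.1 _).2 h1))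
    (fun x y hxy => (hK3.2.1 _ _ _ _ (hi hxy)).2) (fun x => by
      have h2 := hl (M_pad k x)
      have h3 : (x.length + 1) ^ k ≤ (M_pad k x).length := by
        unfold M_pad
        rw [hK3.2.2.1]
        omega
      exact lt_of_le_of_lt h3 h2)
  refine ⟨g, hg, hr.trans ?_⟩
  rintro _ ⟨x, rfl⟩
  exact ⟨M_pad k x, rfl⟩

/-- the first `2 |x₀| + 1` symbols of a pair -/
theorem M_drop (x y : W) : (pr x y).drop (2 * x.length + 1) = y := by
  have h : pr x y = (List.replicate x.length true ++ false :: x) ++ y := by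
    unfold pr
    simp
  rw [h]
  apply List.drop_left'
  simp
  omega

include hF1 in
/-- Nonempty paddable sets contain the range of a `p`-invertible function. -/
theorem M_pad_inv {L : Set W} (h1 : L.Nonempty) (h2 : Paddable L) :
    ∃ g, PInv g ∧ Set.range g ⊆ L := by
  obtain ⟨x₀, hx₀⟩ := h1
  obtain ⟨q, r, hq, hr, hrq, hpad⟩ := h2
  have hPT := hF1.1
  have hpr : PT (pr x₀) := by
    have h : PT (fun y : W => List.replicate x₀.length true ++ false :: (x₀ ++ y)) := by fun_prop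
    exact h
  have hdrop : PT (fun w : W => w.drop (2 * x₀.length + 1)) := by fun_prop
  refine ⟨fun y => q (pr x₀ y), ⟨?_, fun w => (r w).drop (2 * x₀.length + 1), ?_, ?_⟩, ?_⟩
  · exact (hPT _).mpr (PT.comp ((hPT q).mp hq) hpr)
  · exact (hPT _).mpr (PT.comp hdrop ((hPT r).mp hr))
  · intro y
    show (r (q (pr x₀ y))).drop (2 * x₀.length + 1) = y
    rw [hrq, M_drop]
  · rintro _ ⟨y, rfl⟩
    exact (hpad x₀ y).mpr hx₀

include hF1 hK1 hK2 hK3 hR2 hR3 hR5 hB4 in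
theorem main_thm (hF2 : F2_stmt) (k : ℕ) (C₀ : Set W) (hC₀ : NatComplete C₀) :
    List.TFAE [Question,
      ¬ ∃ f, Scrambling f,
      ¬ ∃ f, Scrambling f ∧ Hon k f,
      ∀ f : W → W, PTime f → Injective f → ∃ g, PInv g ∧ Set.range g ⊆ Set.range f,
      ∀ f : W → W, PTime f → Injective f → Hon k f → ∃ g, PInv g ∧ Set.range g ⊆ Set.range f,
      ∀ C : Set W, Complete C → ∃ g, PInv g ∧ Set.range g ⊆ C,
      ∀ C : Set W, Complete C → ∃ L : Set W, L ⊆ C ∧ L.Nonempty ∧ Paddable L,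
      ∀ f : W → W, PTime f → Injective f → Hon k f → PIso C₀ (f '' C₀)] := by
  have hKC : Complete KS := hF1.2.1
  have hsc : ∀ f : W → W, PTime f → Injective f → ¬ Scrambling f →
      ∃ g, PInv g ∧ Set.range g ⊆ Set.range f := by
    intro f hf hi h
    by_contra hne
    refine h ⟨hf, hi, fun L hL1 hL2 hL3 => hne ?_⟩
    obtain ⟨g, hg, hr⟩ := M_pad_inv hF1 hL2 hL3
    exact ⟨g, hg, hr.trans hL1⟩
  have himg : ∀ (C : Set W) (f : W → W), Complete C → PTime f → Injective f → Complete (f '' C) :=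
    hF1.2.2.2
  -- the implications
  have h17 : Question → ∀ C : Set W, Complete C → ∃ L : Set W, L ⊆ C ∧ L.Nonempty ∧ Paddable L :=
    fun hQ C hC => ⟨C, subset_rfl, F3_gen hF1 hK1 hK2 hK3 hR2 hR3 hR5 C (hQ KS C hKC hC)⟩
  have h76 : (∀ C : Set W, Complete C → ∃ L : Set W, L ⊆ C ∧ L.Nonempty ∧ Paddable L) →
      ∀ C : Set W, Complete C → ∃ g, PInv g ∧ Set.range g ⊆ C := by
    intro h C hC
    obtain ⟨L, hL1, hL2, hL3⟩ := h C hC
    obtain ⟨g, hg, hr⟩ := M_pad_inv hF1 hL2 hL3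
    exact ⟨g, hg, hr.trans hL1⟩
  have h64 : (∀ C : Set W, Complete C → ∃ g, PInv g ∧ Set.range g ⊆ C) →
      ∀ f : W → W, PTime f → Injective f → ∃ g, PInv g ∧ Set.range g ⊆ Set.range f := by
    intro h f hf hi
    obtain ⟨g, hg, hr⟩ := h _ (himg KS f hKC hf hi)
    exact ⟨g, hg, hr.trans (Set.image_subset_range f KS)⟩
  have h45 : (∀ f : W → W, PTime f → Injective f → ∃ g, PInv g ∧ Set.range g ⊆ Set.range f) →
      ∀ f : W → W, PTime f → Injective f → Hon k f → ∃ g, PInv g ∧ Set.range g ⊆ Set.range f :=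
    fun h f hf hi _ => h f hf hi
  have h51 : (∀ f : W → W, PTime f → Injective f → Hon k f →
      ∃ g, PInv g ∧ Set.range g ⊆ Set.range f) → Question :=
    fun h => hF2 fun f hf hi hl => M_honest hF1 hK3 k PInv h f hf hi hl
  have h12 : Question → ¬ ∃ f, Scrambling f := by
    rintro hQ ⟨f, hf, hi, hL⟩
    have h1 := F3_gen hF1 hK1 hK2 hK3 hR2 hR3 hR5 _ (hQ KS _ hKC (himg KS f hKC hf hi))
    exact hL _ (Set.image_subset_range f KS) h1.1 h1.2
  have h23 : (¬ ∃ f, Scrambling f) → ¬ ∃ f, Scrambling f ∧ Hon k f := fun h ⟨f, hf, _⟩ => h ⟨f, hf⟩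
  have h35 : (¬ ∃ f, Scrambling f ∧ Hon k f) →
      ∀ f : W → W, PTime f → Injective f → Hon k f → ∃ g, PInv g ∧ Set.range g ⊆ Set.range f :=
    fun h f hf hi hk => hsc f hf hi fun hs => h ⟨f, hs, hk⟩
  have h18 : Question → ∀ f : W → W, PTime f → Injective f → Hon k f → PIso C₀ (f '' C₀) :=
    fun hQ f hf hi _ => hQ C₀ _ (M_complete hC₀) (himg C₀ f (M_complete hC₀) hf hi)
  have h85 : (∀ f : W → W, PTime f → Injective f → Hon k f → PIso C₀ (f '' C₀)) →
      ∀ f : W → W, PTime f → Injective f → Hon k f → ∃ g, PInv g ∧ Set.range g ⊆ Set.range f := by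
    intro h f hf hi hk
    have h1 := F3_gen hF1 hK1 hK2 hK3 hR2 hR3 hR5 _
      (M_trans hF1 (M_iso hF1 hK1 hB4 hC₀) (h f hf hi hk))
    obtain ⟨g, hg, hr⟩ := M_pad_inv hF1 h1.1 h1.2
    exact ⟨g, hg, hr.trans (Set.image_subset_range f C₀)⟩
  tfae_have 1 → 7 := h17
  tfae_have 7 → 6 := h76
  tfae_have 6 → 4 := h64
  tfae_have 4 → 5 := h45
  tfae_have 5 → 1 := h51
  tfae_have 1 → 2 := h12
  tfae_have 2 → 3 := h23
  tfae_have 3 → 5 := h35
  tfae_have 1 → 8 := h18
  tfae_have 8 → 5 := h85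
  tfae_finish

end

end Pool.Agent.RI
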