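import Pool.Agent.helper55.RI.Main
import Pool.Agent.helper55.RI.L1
import Pool.Agent.helper55.RI.L2
import Pool.Agent.helper55.RI.L3

/-!
# The assembly: length-increasing reductions
-/

set_option autoImplicit false

namespace Pool.Agent.RI

open Pool.Agent.helper62 Prog Function Pool.Agent.helper81.PL

/-- one-one, length-increasing, computable in polynomial time -/
def LInc (g : W → W) : Prop := PTime g ∧ Injective g ∧ Li g

/-- r.e. sets which are complete under one-one, length-increasing polynomial time reductions -/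
def LiComplete (C : Set W) : Prop :=
  RE C ∧ ∀ A : Set W, RE A → ∃ g : W → W, LInc g ∧ ∀ x, x ∈ A ↔ g x ∈ C

section

variable (hF1 : F1_stmt) (hK1 : K1_stmt) (hK2 : K2_stmt) (hK3 : K3_stmt) (hR2 : R2_stmt)
  (hR3 : R3_stmt) (hR5 : R5_stmt) (hX8 : X8_stmt) (hX9 : X9_stmt) (hB3 : B3_stmt)
  (hB4 : B4_stmt) (hD5 : D5_stmt) (hQ2 : Q2_stmt) (hQ3 : Q3_stmt)

theorem N_univ (hR3 : R3_stmt) : RE (Set.univ : Set W) := by
  have h1 : REPred (fun x : W => x = x) :=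
    (hR3.2.2.2.1 W W (fun x => x) (fun x => x) Computable.id Computable.id).to_re
  exact h1.of_eq (fun x => by simp)

include hF1 hK3 in
theorem N_pre (a : ℕ) : LInc (pre a) :=
  ⟨(M_pre hF1 hK3 a).1, fun x y h => (hK3.2.1 _ _ _ _ h).2, fun x => by
    rw [hK3.2.2.1]
    omega⟩

include hF1 in
theorem N_comp {f g : W → W} (hf : LInc f) (hg : LInc g) : LInc (fun x => f (g x)) :=
  ⟨M_comp hF1 hf.1 hg.1, fun x y h => hg.2.1 (hf.2.1 h), fun x => (hg.2.2 x).trans (hf.2.2 _)⟩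

theorem N_complete {C : Set W} (h : LiComplete C) : Complete C :=
  ⟨h.1, fun A hA => (h.2 A hA).imp fun _ hg => ⟨hg.1.1, hg.2⟩⟩

include hF1 hK2 hK3 in
/-- a length-increasing reduction from `KS` suffices -/
theorem N_of_KS {C : Set W} (hC : RE C) (h : ∃ g : W → W, LInc g ∧ ∀ x, x ∈ KS ↔ g x ∈ C) :
    LiComplete C := by
  refine ⟨hC, fun A hA => ?_⟩
  obtain ⟨g, hg, hgC⟩ := h
  obtain ⟨a, ha⟩ := hK2.1 A hA
  exact ⟨fun x => g (pre a x), N_comp hF1 hg (N_pre hF1 hK3 a), fun x => (ha x).trans (hgC _)⟩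

include hF1 hK1 hK2 hK3 in
theorem N_KS : LiComplete KS := by
  refine ⟨hK1.1, fun A hA => ?_⟩
  obtain ⟨a, ha⟩ := hK2.1 A hA
  exact ⟨pre a, N_pre hF1 hK3 a, ha⟩

include hF1 hK1 hK2 hK3 in
/-- images of `KS` under length-increasing functions -/
theorem N_image {f : W → W} (hf : LInc f) : LiComplete (f '' KS) :=
  N_of_KS hF1 hK2 hK3 (hF1.2.2.2 KS f hF1.2.1 hf.1 hf.2.1).1
    ⟨f, hf, fun x => ⟨fun hx => ⟨x, hx, rfl⟩, fun ⟨_, hy, hyx⟩ => hf.2.1 hyx ▸ hy⟩⟩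

include hF1 hK1 hB3 in
/-- Isomorphic copies of `KS` are complete under length-increasing reductions. -/
theorem N_iso (hK2 : K2_stmt) (hK3 : K3_stmt) {C : Set W} (hC : RE C) (h : PIso KS C) :
    LiComplete C := by
  obtain ⟨h, g, hh, hg, hgh, hhg, hm⟩ := h
  obtain ⟨e, m, he, hm', hme, hl, hA⟩ := hB3 C ⟨h, g, (hF1.1 h).1 hh, (hF1.1 g).1 hg, hgh, hm⟩
  exact N_of_KS hF1 hK2 hK3 hC ⟨e, ⟨(hF1.1 e).2 he, fun x y hxy => by
    rw [← hme x, ← hme y, hxy], hl⟩, hA⟩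

include hF1 hK1 hK3 hQ2 hQ3 hB4 in
/-- If scrambling by length-increasing functions is impossible, then length-increasing complete sets
are isomorphic to `KS`. -/
theorem N_two (h : ∀ f : W → W, LInc f → ∃ g, PInv g ∧ Set.range g ⊆ Set.range f) {A : Set W}
    (hA : LiComplete A) : PIso KS A := by
  obtain ⟨f, hf, hfA⟩ := hA.2 KS hK1.1
  have hc : Computable f := hF1.2.2.1 f hf.1
  obtain ⟨b, hb⟩ := hK1.2 (QQ f) (hQ2 f hc fun x => (hf.2.2 x).trans Nat.lt_two_pow_self)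
  obtain ⟨g, ⟨hg, m, hm, hmg⟩, hr⟩ := h (fun y => f (pre b y)) (N_comp hF1 hf (N_pre hF1 hK3 b))
  obtain ⟨h1, g1, hh1, hg1, a1, a2, a3⟩ := hB4 A hA.1 (hQ3 A f b ((hF1.1 f).1 hf.1) hf.2.1 hfA hb
    ⟨g, m, (hF1.1 g).1 hg, (hF1.1 m).1 hm, hmg, fun z => hr ⟨z, rfl⟩⟩)
  exact ⟨h1, g1, (hF1.1 _).2 hh1, (hF1.1 _).2 hg1, a1, a2, a3⟩

include hF1 hK1 hK2 hK3 hR2 hR3 hR5 hX8 hX9 hD5 in
/-- Complete sets are complete under length-increasing reductions if the ranges of one-one functions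
contain ranges of length-increasing functions. -/
theorem N_one (k : ℕ) (h : ∀ f : W → W, PTime f → Injective f → Hon k f →
      ∃ g, LInc g ∧ Set.range g ⊆ Set.range f) {A : Set W} (hA : Complete A) : LiComplete A := by
  obtain ⟨f, hf, hinj, hred, hlen⟩ := hD5 A hA
  have hc : Computable f := hF1.2.2.1 f ((hF1.1 f).2 hf)
  obtain ⟨b, hb⟩ := hK1.2 (QL f) (L2 (L1 hR3 hR5 hX8) hK1 hR2 hR3 hR5 hX8 f hc hlen)
  have hF : PTime (fun y => f (pre b y)) := M_comp hF1 ((hF1.1 f).2 hf) (M_pre hF1 hK3 b).1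
  have hFi : Injective (fun y => f (pre b y)) := fun y y' h => (hK3.2.1 b b y y' (hinj h)).2
  have hFl : ∀ y : W, y.length < 2 ^ (f (pre b y)).length := by
    intro y
    have h1 := hlen (pre b y)
    have h2 := hK3.2.2.1 b y
    omega
  obtain ⟨g, hg, hr⟩ := M_honest hF1 hK3 k LInc h _ hF hFi hFl
  obtain ⟨e, he, hei, hel, heA⟩ := L3 hX9 hK2 hK3 A f b hf hinj hred hb
    ⟨g, (hF1.1 g).1 hg.1, hg.2.1, hg.2.2, fun z => hr ⟨z, rfl⟩⟩
  exact N_of_KS hF1 hK2 hK3 hA.1 ⟨e, ⟨(hF1.1 e).2 he, hei, hel⟩, heA⟩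

include hF1 hK1 hK2 hK3 hR2 hR3 hR5 hX8 hX9 hD5 in
theorem li_first (k : ℕ) :
    List.TFAE [∀ C : Set W, Complete C → LiComplete C,
      ∀ f : W → W, PTime f → Injective f → ∃ g, LInc g ∧ Set.range g ⊆ Set.range f,
      ∀ f : W → W, PTime f → Injective f → Hon k f → ∃ g, LInc g ∧ Set.range g ⊆ Set.range f,
      ∀ C : Set W, Complete C → ∃ g, LInc g ∧ Set.range g ⊆ C] := by
  tfae_have 1 → 4 := by
    intro h C hC
    obtain ⟨g, hg, hgC⟩ := (h C hC).2 _ (N_univ hR3)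
    exact ⟨g, hg, by rintro _ ⟨x, rfl⟩; exact (hgC x).1 (Set.mem_univ x)⟩
  tfae_have 4 → 2 := by
    intro h f hf hi
    obtain ⟨g, hg, hr⟩ := h _ (hF1.2.2.2 KS f hF1.2.1 hf hi)
    exact ⟨g, hg, hr.trans (Set.image_subset_range f KS)⟩
  tfae_have 2 → 3 := fun h f hf hi _ => h f hf hi
  tfae_have 3 → 1 := fun h C hC => N_one hF1 hK1 hK2 hK3 hR2 hR3 hR5 hX8 hX9 hD5 k h hC
  tfae_finish

include hF1 hK1 hK2 hK3 hR2 hR3 hR5 hQ2 hQ3 hB4 in
theorem li_second :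
    List.TFAE [∀ A B : Set W, LiComplete A → LiComplete B → PIso A B,
      ∀ f : W → W, LInc f → ∃ g, PInv g ∧ Set.range g ⊆ Set.range f,
      ¬ ∃ f, Scrambling f ∧ Li f,
      ∀ C : Set W, LiComplete C → ∃ g, PInv g ∧ Set.range g ⊆ C] := by
  tfae_have 1 → 4 := by
    intro h C hC
    have h1 := F3_gen hF1 hK1 hK2 hK3 hR2 hR3 hR5 _ (h KS C (N_KS hF1 hK1 hK2 hK3) hC)
    exact M_pad_inv hF1 h1.1 h1.2
  tfae_have 4 → 2 := by
    intro h f hf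
    obtain ⟨g, hg, hr⟩ := h _ (N_image hF1 hK1 hK2 hK3 hf)
    exact ⟨g, hg, hr.trans (Set.image_subset_range f KS)⟩
  tfae_have 2 → 1 := fun h A B hA hB =>
    M_trans hF1 (M_symm (N_two hF1 hK1 hK3 hB4 hQ2 hQ3 h hA)) (N_two hF1 hK1 hK3 hB4 hQ2 hQ3 h hB)
  tfae_have 1 → 3 := by
    rintro h ⟨f, ⟨hf, hi, hL⟩, hl⟩
    have h1 := F3_gen hF1 hK1 hK2 hK3 hR2 hR3 hR5 _
      (h KS _ (N_KS hF1 hK1 hK2 hK3) (N_image hF1 hK1 hK2 hK3 ⟨hf, hi, hl⟩))
    exact hL _ (Set.image_subset_range f KS) h1.1 h1.2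
  tfae_have 3 → 2 := by
    intro h f hf
    by_contra hne
    refine h ⟨f, ⟨hf.1, hf.2.1, fun L hL1 hL2 hL3 => hne ?_⟩, hf.2.2⟩
    obtain ⟨g, hg, hr⟩ := M_pad_inv hF1 hL2 hL3
    exact ⟨g, hg, hr.trans hL1⟩
  tfae_finish

include hF1 hK1 hK2 hK3 hB3 in
theorem li_third : Question ↔ (∀ C : Set W, Complete C → LiComplete C) ∧
    ∀ A B : Set W, LiComplete A → LiComplete B → PIso A B :=
  ⟨fun hQ => ⟨fun C hC => N_iso hF1 hK1 hB3 hK2 hK3 hC.1 (hQ KS C hF1.2.1 hC),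
    fun A B hA hB => hQ A B (N_complete hA) (N_complete hB)⟩,
    fun h A B hA hB => h.2 A B (h.1 A hA) (h.1 B hB)⟩

end

end Pool.Agent.RI
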