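import Pool.Agent.helper55.RI.SpecV
import Pool.Agent.helper63.RI.F4
import Pool.Agent.helper55.RI.F3

/-!
# The assembly: other classes
-/

set_option autoImplicit false

namespace Pool.Agent.RI

open Pool.Agent.helper62 Prog Function Pool.Agent.helper81.PL

section G

variable (hG4 : G4_stmt) (hG5 : G5_stmt) (hG6 : G6_stmt) (hG7 : G7_stmt) (hG8 : G8_stmt)
  (hG9 : G9_stmt) (hG10 : G10_stmt)

theorem O_pt {f : W → W} : PTime f ↔ PT f := uF1.1 f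

include hG4 hG5 hG6 hG7 in
/-- a complete set is isomorphic to its cylinder -/
theorem O_cyl (𝒞 : Set (Set W)) (hC : Good 𝒞) (hH : HypH) {A : Set W} (hA : CompleteIn 𝒞 A) :
    LI (cyl A) A := by
  obtain ⟨f, hf, hfA⟩ := hA.2 _ (hG4 𝒞 A hC hA)
  obtain ⟨i, hi⟩ := uX9.2 f (O_pt.1 hf)
  have h1 : ∀ w, w ∈ DST A (TG A) ↔ E i w ∈ A := by
    intro w
    rw [hi]
    exact hfA w
  obtain ⟨hinj, hT, hlen⟩ := hG5 A (TG A) i h1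
  have hpt : PTime (GG i) := O_pt.2 (D4 uX9 K3 i)
  obtain ⟨g, ⟨hg, m, hm, hmg⟩, hr⟩ := hH (GG i) hpt hinj hlen
  refine hG7.1 A (hG6 A i hinj hlen hT ⟨g, m, O_pt.1 hg, O_pt.1 hm, hmg, fun z => ?_⟩)
  exact hr ⟨z, rfl⟩

include hG4 hG5 hG6 hG7 hG8 hG9 hG10 in
theorem O_G : G_stmt := by
  intro 𝒞 hC ⟨A₀, hA₀⟩
  have hFIN : (Question ↔ HypA) ∧ (Question ↔ HypH) ∧ (Question ↔ ¬ ∃ f, Scrambling f) ∧
    (Question ↔ ∀ (C : Set W) (f : W → W), Complete C → PTime f → Injective f → PIso C (f '' C)) :=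
    FIN uF1 uF2 (F3 uF1 uK1 uK2 K3 uR2 R3 R5) (F4 uF1)
  rw [hFIN.2.1]
  constructor
  · intro hI f hf hinj hlen
    obtain ⟨h1, h2⟩ := hG8 𝒞 A₀ hC hA₀
    exact hG10 A₀ f h2 hf hinj (hI _ _ h1 (hG9 𝒞 _ f hC h1 hf hinj hlen))
  · intro hH A B hA hB
    obtain ⟨h1, h2, h3, h4, h5⟩ := hG7
    have ha := O_cyl hG4 hG5 hG6 ⟨h1, h2, h3, h4, h5⟩ 𝒞 hC hH hA
    have hb := O_cyl hG4 hG5 hG6 ⟨h1, h2, h3, h4, h5⟩ 𝒞 hC hH hB
    have hab := h2 A B (hB.2 A hA.1) (hA.2 B hB.1)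
    exact (h5 A B).1 (h3 _ _ _ (h4 _ _ ha) (h3 _ _ _ hab hb))

end G

section V

variable (hV1 : V1_stmt) (hV2 : V2_stmt) (hV4 : V4_stmt) (hV6 : V6_stmt) (hV7 : V7_stmt)
  (hV8 : V8_stmt) (hV9 : V9_stmt) (hV10 : V10_stmt) (hG1 : G1_stmt) (hG7 : G7_stmt)
  (hG10 : G10_stmt)

include hV1 hV2 in
theorem O_EXP (A : Set W) : EXPT A ↔ EXPP A := ⟨hV2 A, hV1 A⟩

include hV1 hV2 hV9 in
theorem O_UE : CompleteIn {A | EXPT A} UE := by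
  refine ⟨hV1 _ hV9.1, fun B hB => ?_⟩
  obtain ⟨f, hf, h⟩ := hV9.2 B (hV2 B hB)
  exact ⟨f, O_pt.2 hf, h⟩

include hV1 hV2 hV10 hG1 in
theorem O_complete {A : Set W} (hA : CompleteIn {A | EXPT A} A) :
    CompleteIn {A | EXPT A} (cyl A) ∧ A.Nonempty := by
  constructor
  · refine ⟨hV1 _ (hV10.1 A fs (hV2 A hA.1) hG1.1), fun B hB => ?_⟩
    obtain ⟨f, hf, h⟩ := hA.2 B hB
    have h3 : PT (fun x => pr (f x) (f x)) := by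
      have hf' := O_pt.1 hf
      have := hG1.2.2.1
      fun_prop
    refine ⟨fun x => pr (f x) (f x), O_pt.2 h3, fun x => ?_⟩
    rw [h x]
    change _ ↔ fs (pr (f x) (f x)) ∈ A
    rw [hG1.2.2.2.1]
  · have huniv : EXPT (Set.univ : Set W) := hV1 _ ⟨fun _ => true, 0, by fun_prop, fun x => by simp⟩
    obtain ⟨f, -, h⟩ := hA.2 _ huniv
    exact ⟨f [], (h []).1 trivial⟩

include hV1 hV2 hV4 hV6 hV7 hV8 hG1 hG7 in
theorem O_cylE (hH : HypL) {A : Set W} (hA : CompleteIn {A | EXPT A} A) : LI (cyl A) A := by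
  obtain ⟨f, hf, hfA⟩ := hA.2 _ (hV1 _ (hV6 A (hV2 A hA.1)))
  obtain ⟨i, hi⟩ := hV4.2.2.2.1 f (O_pt.1 hf)
  have h1 : ∀ w, w ∈ DE A ↔ EW i w ∈ A := by
    intro w
    rw [hi]
    exact hfA w
  obtain ⟨hinj, hlen, hT⟩ := hV7 A i h1
  have hpt : PT (GE i) := by
    have h3 := hV4.2.2.2.2 i
    have h4 := hG1.2.2.1
    unfold GE
    fun_prop
  obtain ⟨g, ⟨hg, m, hm, hmg⟩, hr⟩ := hH (GE i) (O_pt.2 hpt) hinj hlen
  refine hG7.1 A (hV8 A i hinj hlen hT ⟨g, m, O_pt.1 hg, O_pt.1 hm, hmg, fun z => ?_⟩)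
  exact hr ⟨z, rfl⟩

include hV1 hV2 hV4 hV6 hV7 hV8 hV9 hV10 hG1 hG7 hG10 in
theorem O_V : V_stmt := by
  have hU := O_UE hV1 hV2 hV9
  refine ⟨⟨UE, hU⟩, ?_, ?_⟩
  · intro hI f hf hinj hlen
    obtain ⟨h1, h2⟩ := O_complete hV1 hV2 hV10 hG1 hU
    refine hG10 UE f h2 hf hinj (hI _ _ h1 ⟨hV1 _ (hV10.2 _ f (hV2 _ h1.1) (O_pt.1 hf) hinj hlen), ?_⟩)
    intro B hB
    obtain ⟨r, hr, h⟩ := h1.2 B hB
    refine ⟨fun x => f (r x), O_pt.2 ((O_pt.1 hf).comp (O_pt.1 hr)), fun x => ?_⟩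
    rw [h x]
    exact ⟨fun hx => ⟨_, hx, rfl⟩, fun ⟨_, hy, hyx⟩ => hinj hyx ▸ hy⟩
  · intro hH A B hA hB
    have ha := O_cylE hV1 hV2 hV4 hV6 hV7 hV8 hG1 hG7 hH hA
    have hb := O_cylE hV1 hV2 hV4 hV6 hV7 hV8 hG1 hG7 hH hB
    obtain ⟨h1, h2, h3, h4, h5⟩ := hG7
    have hab := h2 A B (hB.2 A hA.1) (hA.2 B hB.1)
    exact (h5 A B).1 (h3 _ _ _ (h4 _ _ ha) (h3 _ _ _ hab hb))

end V

/-- All arithmetical classes are good and have complete sets. -/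
theorem O_S (hS1 : S1_stmt) (hS2 : S2_stmt) (hS3 : S3_stmt) (n : ℕ) :
    Good (Sig n) ∧ ∃ C, CompleteIn (Sig n) C := by
  induction n with
  | zero => exact hS1
  | succ n ih => exact ⟨hS2 n ih.1, hS3 n ih.1 ih.2⟩

/-- `HypL` in the words of the second hand-in -/
theorem O_L : List.TFAE [HypL,
    ∀ A B : Set W, LiComplete A → LiComplete B → PIso A B,
    ¬ ∃ f, Scrambling f ∧ Li f] := by
  have h := uLi2
  have h1 : HypL ↔ ∀ f : W → W, LInc f → ∃ g, PInv g ∧ Set.range g ⊆ Set.range f :=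
    ⟨fun h f hf => h f hf.1 hf.2.1 hf.2.2, fun h f h1 h2 h3 => h f ⟨h1, h2, h3⟩⟩
  tfae_have 1 ↔ 2 := h1.trans (h.out 1 0)
  tfae_have 1 ↔ 3 := h1.trans (h.out 1 2)
  tfae_finish

/-- The final theorem from its parts -/
theorem O_final (hG : G_stmt) (hV : V_stmt) (hS : ∀ n, Good (Sig n) ∧ ∃ C, CompleteIn (Sig n) C) :
    (∀ 𝒞 : Set (Set W), Good 𝒞 → (∃ C, CompleteIn 𝒞 C) → (IsoIn 𝒞 ↔ Question)) ∧
    (∀ n, Good (Sig n) ∧ (∃ C, CompleteIn (Sig n) C) ∧ (IsoIn (Sig n) ↔ Question)) ∧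
    (∃ C, CompleteIn {A | EXPT A} C) ∧
    List.TFAE [IsoIn {A | EXPT A},
      ¬ ∃ f, Scrambling f ∧ Li f,
      ∀ f : W → W, LInc f → ∃ g, PInv g ∧ Set.range g ⊆ Set.range f,
      ∀ A B : Set W, LiComplete A → LiComplete B → PIso A B] ∧
    (Question ↔ (∀ C : Set W, Complete C → LiComplete C) ∧ IsoIn {A | EXPT A}) := by
  have hL := O_L
  have hI := hV.2
  have h2 := uLi2
  have hI1 : IsoIn {A | EXPT A} ↔ ∀ A B : Set W, LiComplete A → LiComplete B → PIso A B :=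
    hI.trans (hL.out 0 1)
  refine ⟨hG, fun n => ⟨(hS n).1, (hS n).2, hG _ (hS n).1 (hS n).2⟩, hV.1, ?_, ?_⟩
  · tfae_have 1 ↔ 4 := hI1
    tfae_have 1 ↔ 2 := hI1.trans (h2.out 0 2)
    tfae_have 1 ↔ 3 := hI1.trans (h2.out 0 1)
    tfae_finish
  · rw [uLi3, hI1]

end Pool.Agent.RI
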