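import Pool.Agent.helper55.RI.Defs
import Pool.Agent.helper81.PL.Inst
import Pool.Agent.helper81.PL.Clip
import Pool.Agent.helper62.PL.INW

/-!
# Project ri (MP_2bd605_lc): polynomially complete r.e. sets and scrambling functions

THEOREM. Any two polynomially complete r.e. sets are polynomially isomorphic if and only if for every one-one
polynomial time `f` there is a one-one polynomial time `g` with polynomial time inverse and `range g ⊆ range f`
(that is, if and only if scrambling functions do not exist).

## Rules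
File `Pool/Agent/<seat>/RI/XX.lean`:

  import Pool.Agent.helper55.RI.Spec
  set_option autoImplicit false
  namespace Pool.Agent.RI
  open Pool.Agent.helper62 Prog Function Pool.Agent.helper81.PL
  theorem XX (hYY : YY_stmt) ... : XX_stmt := ...
  end Pool.Agent.RI

Hypotheses: any other statements of this file (no circles). Auxiliary lemmas are prefixed `XX_`. No sorry, no double
quotes. Polynomial time library: `PT f` (`helper81/PL/{Defs,Base,Iter,ListA,ListB,Clip}.lean`): `f : α → β` on types with
`Rep` (words, `ℕ` in UNARY, pairs, lists, options), closed under composition etc. by `fun_prop`; iteration `pt_iter`, `pt_citer`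
(clipped), folds `pt_foldl`, `pt_cfold`; sizes `sz`, `PT.size`, `PB`. See `helper62/PL/INW.lean` for examples (`inN w` = the
number of the leading symbols `true` of `w` if `w` contains `false`; INW1).
-/

set_option autoImplicit false
set_option linter.unusedVariables false

namespace Pool.Agent.RI

open Pool.Agent.helper62 Prog Function Pool.Agent.helper81.PL

/-! ## Basic definitions -/

/-- `1^a 0 x` -/
def pre (a : ℕ) (x : W) : W := List.replicate a true ++ false :: x

/-- the number of a word in Mathlib's coding -/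
def enc (x : W) : ℕ := Encodable.encode x

/-- the word with the number `n` (`[]` if `n` is not the number of a word) -/
def dw (n : ℕ) : W := (Encodable.decode (α := W) n).getD []

/-- `f` is computed by a stack program (word in, word out, stack 0) in polynomial time. -/
def WP (f : W → W) : Prop :=
  ∃ (p : Prog ℕ) (c : Polynomial ℕ), ∀ w : W,
    Runs p (update (fun _ => []) 0 w) (update (fun _ => []) 0 (f w)) (c.eval w.length)

/-- instructions of the goto machine: `(op, k, b, j0, j1, j2)` -/
abbrev Ins : Type := ℕ × ℕ × Bool × ℕ × ℕ × ℕ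

/-- One step of the goto machine with program `L`; configurations are `(pc, stacks)`; `op = 0`: goto `j0`; `op = 1`: push `b`
on the stack `k`, goto `j0`; otherwise: pop the stack `k`, goto `j0`, `j1`, `j2` if it was empty, `false`, `true`. The machine stops
when `pc` is not an address. -/
def gstep (L : List Ins) (c : ℕ × List W) : ℕ × List W :=
  match L[c.1]? with
  | none => c
  | some (op, k, b, j0, j1, j2) =>
    if op = 0 then (j0, c.2)
    else if op = 1 then (j0, c.2.set k (b :: c.2.getD k []))
    else match c.2.getD k [] with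
      | [] => (j0, c.2)
      | false :: l => (j1, c.2.set k l)
      | true :: l => (j2, c.2.set k l)

/-- Clocked evaluation: program, number of further stacks, exponent of the time bound. -/
def ev (q : List Ins × ℕ × ℕ) (w : W) : W :=
  ((gstep q.1)^[(w.length + 2) ^ q.2.2] (0, w :: List.replicate q.2.1 [])).2.headD []

/-- the enumeration of the polynomial time functions -/
def E (k : ℕ) (w : W) : W := ev ((Encodable.decode (α := List Ins × ℕ × ℕ) k).getD ([], 0, 0)) w

/-- the program with the number `a` halts on `x` -/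
def halts (a : ℕ) (x : W) : Prop := ((Denumerable.ofNat Nat.Partrec.Code a).eval (enc x)).Dom

/-- the universal set -/
def KS : Set W := {w | ∃ (a : ℕ) (x : W), w = pre a x ∧ halts a x}

/-! ## X. Machines and the polynomial time library -/

/-- X1. `fun_prop` proves `PT` of the function on code words; the program: `INP` (input word `w` to `cd w`), the program of `f` at
the stack `0`, then an output program from `cd v` to `v`: `loop 0 skip (ifp 0 skip (push 1 false) (seq (ifp 0 skip skip skip)
(seq (ifp 0 skip skip skip) (push 1 true))))` then `pour 1 0` (the code of a list is `true :: (code of the Boolean ++ code of the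
tail)`, of `[]` it is `[false]`; of `false` `[false]`, of `true` `[true, false, false]`; induction on `v`). Compare
`helper52/PL/MAC.lean`. The time is polynomial in `sz w ≤ 4 |w| + 1`. -/
def X1_stmt : Prop := ∀ f : W → W, PT f → WP f

/-- X2. Restrict to finitely many stacks (`Pool.Agent.H54.PT.exists_supp`, `exec_toFin`), then `Pool.Agent.helper62.Prog.toPolyTime`.
Compare `helper52/PL/MAC.lean`. -/
def X2_stmt : Prop := ∀ f : W → W, WP f → PTime f

section TM
open Turing

variable {K : Type} [DecidableEq K] {Γ : K → Type} {Λ σ : Type}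

/-- Numbering of the finitely many objects of a machine; `G k` are the (finitely many) symbols which occur. -/
structure Num (K : Type) (Γ : K → Type) (Λ σ : Type) where
  N : ℕ
  nk : K → ℕ
  nl : Option Λ → ℕ
  ns : σ → ℕ
  ng : ∀ k, Γ k → ℕ
  G : ∀ k, Set (Γ k)
  injk : Injective nk
  injl : Injective nl
  injs : Injective ns
  injg : ∀ k, Set.InjOn (ng k) (G k)
  ltk : ∀ k, nk k < N
  ltl : ∀ l, nl l < N
  lts : ∀ s, ns s < N
  ltg : ∀ k, ∀ g ∈ G k, ng k g < N

/-- the symbols pushed by a statement are in `G` -/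
def Num.Good (n : Num K Γ Λ σ) : TM2.Stmt Γ Λ σ → Prop
  | .push k f q => (∀ v, f v ∈ n.G k) ∧ n.Good q
  | .peek _ _ q => n.Good q
  | .pop _ _ q => n.Good q
  | .load _ q => n.Good q
  | .branch _ q q' => n.Good q ∧ n.Good q'
  | .goto _ => True
  | .halt => True

/-- `d` represents the configuration `c`. -/
def Num.Rp (n : Num K Γ Λ σ) (c : TM2.Cfg Γ Λ σ) (d : ℕ × ℕ × List (List ℕ)) : Prop :=
  d.1 = n.nl c.l ∧ d.2.1 = n.ns c.var ∧ d.2.2.length = n.N ∧
    (∀ k, d.2.2.getD (n.nk k) [] = (c.stk k).map (n.ng k)) ∧ ∀ k, ∀ g ∈ c.stk k, g ∈ n.G k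

end TM

/-- X3. Simulation of a statement. Induction on `q`. A function `ℕ → ℕ` (or `ℕ × ℕ → ℕ`) which is only used for arguments `< N`
is given by a constant table `t : List ℕ` (`List (List ℕ)`), `fun x => t.getD x 0` is `PT`. The new value of `var` after `peek`/`pop` depends
on `ns v` and on the number of the top symbol (`0` for the empty stack, `ng g + 1`); choose the tables classically
(`injs`, `injg`). `set`: `l.set i x = l.take i ++ x :: l.drop (i + 1)` for `i < l.length`. `branch`: `bif`. `halt`: `nl none`. The sizes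
increase by at most a constant (only for represented configurations). -/
def X3_stmt : Prop := ∀ (K : Type) [DecidableEq K] (Γ : K → Type) (Λ σ : Type) (n : Num K Γ Λ σ)
  (q : Turing.TM2.Stmt Γ Λ σ), n.Good q → ∃ s : ℕ × ℕ × List (List ℕ) → ℕ × ℕ × List (List ℕ), PT s ∧
    ∃ C : ℕ, ∀ (l : Option Λ) (v : σ) (S : ∀ k, List (Γ k)) (d : ℕ × ℕ × List (List ℕ)),
      n.Rp ⟨l, v, S⟩ d → n.Rp (Turing.TM2.stepAux q v S) (s d) ∧ sz (s d) ≤ sz d + C

/-- X4. One step. `s d` = the function of X3 for the statement `m l` if `d.1 = nl (some l)` (nested `bif` over the finite list of all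
labels), `d` otherwise. Uses X3. -/
def X4_stmt : Prop := ∀ (K : Type) [DecidableEq K] (Γ : K → Type) (Λ σ : Type) [Finite Λ] (n : Num K Γ Λ σ)
  (m : Λ → Turing.TM2.Stmt Γ Λ σ), (∀ l, n.Good (m l)) →
  ∃ s : ℕ × ℕ × List (List ℕ) → ℕ × ℕ × List (List ℕ), PT s ∧
    ∃ C : ℕ, ∀ (c : Turing.TM2.Cfg Γ Λ σ) (d : ℕ × ℕ × List (List ℕ)), n.Rp c d →
      (Turing.TM2.step m c = none → s d = d) ∧
      ∀ c', Turing.TM2.step m c = some c' → n.Rp c' (s d) ∧ sz (s d) ≤ sz d + C

/-- X5. Machines to the library. Let `M` be the machine, `T` its time polynomial. `G k` = all values of the functions in the push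
statements (finite, `σ` and `Λ` are finite) and, for `k = k₀`, all symbols (`Γ k₀` is finite); `Num` exists. By
`Pool.Agent.helper81.PolyComp`-style runs (`(flip bind step)^[n] (some a) = some b`) and X4 the `n`-th iterate of `s` represents the
configuration after `min n steps` steps (the last one has `l = none`, so `step = none`). Initial representation: stacks `replicate N []` with
the stack `nk k₀` replaced by the list of the numbers of the input symbols (`PT` by `fun_prop`); `T(|w|)` in unary is `PT`
(bounded by `C (|w| + 1)^d`; or induction on the polynomial). Result: read the stack `nk k₁`, table from numbers to Booleans (the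
output alphabet is equivalent to `Bool`). `pt_iter` with the bound `sz (initial) + n C`. Uses X4. -/
def X5_stmt : Prop := ∀ f : W → W, PTime f → PT f

/-- X6. Compilation of stack programs to the goto machine. Define `len : Prog ℕ → ℕ`, `comp : Prog ℕ → (start exit : ℕ) → List Ins`:
`skip`: `[(0,0,false,e,0,0)]`; `push k b`: `[(1,k,b,e,0,0)]`; `seq p q`: `comp p s (s + len p) ++ comp q (s + len p) e`;
`loop k p q`: `(2,k,false,e,s+1,s+1+len p) :: comp p (s+1) s ++ comp q (s+1+len p) s`; `ifp k o p q`:
`(2,k,false,s+1,s+1+len o,s+1+len o+len p) :: comp o (s+1) e ++ comp p (s+1+len o) e ++ comp q (s+1+len o+len p) e`.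
If `L[s+i]? = (comp p s e)[i]?` for all `i < len p`, all stacks used by `p` are `< M`, `st.length = M` and `st.getD i [] = S i` for `i < M`, and
`Exec p S S' n`, then `(gstep L)^[n] (s, st) = (e, st')` with `st'` representing `S'` (induction on `Exec`). With `L = comp p 0 (len p)` the machine
has stopped at `e = len p`. `Pool.Agent.H54.PT.exists_supp` bounds the stacks. A polynomial is `≤ (n + 2)^d` for some `d`. -/
def X6_stmt : Prop := ∀ f : W → W, WP f → ∃ q : List Ins × ℕ × ℕ, ∀ w, ev q w = f w

/-- X7. `gstep` is `PT` in both arguments (`fun_prop` after rewriting `set` as `take ++ :: drop` under a condition), the sizes of the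
configurations grow by a constant in every step (`pt_iter`; `j0, j1, j2` are bounded by the size of `L`); `(|w| + 2)^d` is `PT`. -/
def X7_stmt : Prop := ∀ q : List Ins × ℕ × ℕ, PT (ev q)

/-- X8. `gstep` is primitive recursive (`Primrec` of `List` operations: `list_getElem?`, `list_take`, `list_drop`, case distinctions),
`Primrec.nat_iterate`; decoding is primitive recursive. -/
def X8_stmt : Prop := Computable (fun p : ℕ × W => E p.1 p.2)

/-- X9. Uses X1, X6, X7 (`Encodable.encodek`). -/
def X9_stmt : Prop := (∀ k, PT (E k)) ∧ ∀ f : W → W, PT f → ∃ k, E k = f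

/-! ## R. Toolbox for r.e. and decidable predicates -/

/-- R1. `REPred p ↔ ∃` computable `T : α × ℕ → Bool`, monotone in `n`, with `p a ↔ ∃ n, T (a, n) = true`: `Nat.Partrec.Code.exists_code`,
`evaln`, `Nat.Partrec.Code.primrec_evaln`, `evaln_mono`, `evaln_complete`; conversely `Partrec.rfind`. -/
def R1_stmt : Prop := ∀ (α : Type) [Primcodable α] (p : α → Prop), REPred p ↔
  ∃ T : α × ℕ → Bool, Computable T ∧ (∀ a n m, n ≤ m → T (a, n) = true → T (a, m) = true) ∧
    ∀ a, p a ↔ ∃ n, T (a, n) = true

/-- R2. Closure properties of r.e. predicates. All from R1. -/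
def R2_stmt : Prop :=
  (∀ (α : Type) [Primcodable α] (p q : α → Prop), REPred p → REPred q →
    REPred (fun a => p a ∧ q a) ∧ REPred (fun a => p a ∨ q a)) ∧
  (∀ (α β : Type) [Primcodable α] [Primcodable β] (f : α → β) (p : β → Prop), Computable f → REPred p →
    REPred (fun a => p (f a))) ∧
  (∀ (α β : Type) [Primcodable α] [Primcodable β] (p : α → β → Prop),
    REPred (fun x : α × β => p x.1 x.2) → REPred (fun a => ∃ b, p a b)) ∧
  (∀ (α : Type) [Primcodable α] (p : α → ℕ → Prop) (g : α → ℕ), REPred (fun x : α × ℕ => p x.1 x.2) →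
    Computable g → REPred (fun a => ∀ k < g a, p a k)) ∧
  ∀ (α β : Type) [Primcodable α] [Primcodable β] (p : α → β → Prop) (g : α → List β),
    REPred (fun x : α × β => p x.1 x.2) → Computable g → REPred (fun a => ∀ b ∈ g a, p a b)

/-- R3. Closure properties of decidable predicates. Bounded quantifiers: `Computable.nat_rec`. -/
def R3_stmt : Prop :=
  (∀ (α : Type) [Primcodable α] (p q : α → Prop), ComputablePred p → ComputablePred q →
    ComputablePred (fun a => p a ∧ q a) ∧ ComputablePred (fun a => p a ∨ q a) ∧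
    ComputablePred (fun a => ¬ p a)) ∧
  (∀ (α β : Type) [Primcodable α] [Primcodable β] (f : α → β) (p : β → Prop), Computable f →
    ComputablePred p → ComputablePred (fun a => p (f a))) ∧
  (∀ (α : Type) [Primcodable α] (p : α → ℕ → Prop) (g : α → ℕ),
    ComputablePred (fun x : α × ℕ => p x.1 x.2) → Computable g →
    ComputablePred (fun a => ∀ k < g a, p a k) ∧ ComputablePred (fun a => ∃ k < g a, p a k)) ∧
  (∀ (α β : Type) [Primcodable α] [Primcodable β] [DecidableEq β] (f g : α → β), Computable f →
    Computable g → ComputablePred (fun a => f a = g a)) ∧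
  ∀ (α : Type) [Primcodable α] (f g : α → ℕ), Computable f → Computable g →
    ComputablePred (fun a => f a < g a)

/-- R4. Searches: `Computable.nat_rec`, or: `find?` gives the least `c < g a` with `p (a, c)`. -/
def R4_stmt : Prop := ∀ (α : Type) [Primcodable α] (p : α → ℕ → Bool) (g : α → ℕ),
  Computable (fun x : α × ℕ => p x.1 x.2) → Computable g →
    Computable (fun a => ((List.range (g a)).find? (p a)).getD 0)

/-- R5. Some computable functions: `pre`, length, `2 ^ n`, `enc`, and the inverse of `enc`. (`Primrec`.) -/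
def R5_stmt : Prop :=
  Computable (fun p : ℕ × W => pre p.1 p.2) ∧ Computable (fun x : W => x.length) ∧
  Computable (fun n : ℕ => 2 ^ n) ∧ Computable enc ∧
  Computable dw ∧ (∀ x : W, dw (enc x) = x) ∧
  ∃ B : ℕ → ℕ, Computable B ∧ ∀ (x : W) (n : ℕ), x.length ≤ n → enc x < B n

/-! ## K. The universal set -/

/-- K1. `KS` is r.e.: `∃ a, ∃ x, w = pre a x ∧ halts a x` (R2, R3, R5; `halts` by `Nat.Partrec.Code.eval_part` and `Partrec.dom_re`).
The second item: the recursion theorem `Nat.Partrec.Code.fixed_point₂` for the partial function which on `(c, n)` halts iff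
`Q (encode c) (decode n)`. -/
def K1_stmt : Prop := RE KS ∧ ∀ Q : ℕ → W → Prop, REPred (fun p : ℕ × W => Q p.1 p.2) →
  ∃ b, ∀ y, pre b y ∈ KS ↔ Q b y

/-- K2. From K1: `Q b y := y ∈ A`; and for the padding `A = {pre j x | x ∈ KS}` (r.e. by R2, R3, R5). Uses K1, R2, R3, R5. -/
def K2_stmt : Prop := (∀ A : Set W, RE A → ∃ a, ∀ y, y ∈ A ↔ pre a y ∈ KS) ∧
  ∃ a, ∀ (j : ℕ) (x : W), pre a (pre j x) ∈ KS ↔ x ∈ KS

/-- K3. `pre` in polynomial time, and its inverse (`strip` removes the leading `true`s and the next symbol; `inN`, INW1: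
`w.drop (inN w + 1)`). -/
def K3_stmt : Prop := PT (fun p : ℕ × W => pre p.1 p.2) ∧
  (∀ a b x y, pre a x = pre b y → a = b ∧ x = y) ∧ (∀ a x, (pre a x).length = a + x.length + 1) ∧
  ∃ strip : W → W, PT strip ∧ ∀ a x, strip (pre a x) = x

/-! ## D. One-one reductions to a complete set -/

/-- the value of the candidate `i` at `(c, x)` -/
def uu (i c : ℕ) (x : W) : W := E i (pre i (pre c x))

/-- the value is long -/
def lng (i c : ℕ) (x : W) : Bool := decide (x.length < 2 ^ (uu i c x).length)

/-- the first parameter with a long value -/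
def cm (i : ℕ) (x : W) : ℕ := ((List.range (2 * x.length + 1)).find? (fun c => lng i c x)).getD 0

/-- the candidate reduction of `KS` -/
def GG (i : ℕ) (x : W) : W := uu i (cm i x) x

/-- the diagonal predicate -/
def DD (A : Set W) (i c : ℕ) (x : W) : Prop :=
  (lng i c x = false ∧ ∃ ℓ : List W, (∀ m < ℓ.length, ∀ n < m, ℓ[n]? ≠ ℓ[m]?) ∧ ℓ.length = c ∧
    (∀ a ∈ ℓ, a ∈ A ∧ 2 ^ a.length ≤ x.length) ∧ ∀ m < ℓ.length, ℓ[m]? ≠ some (uu i c x)) ∨
  (lng i c x = true ∧ (∀ n < enc x, enc (dw n) < enc x → GG i (dw n) ≠ GG i x) ∧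
    (x ∈ KS ∨ ∃ x' : W, enc x < enc x' ∧ GG i x' = GG i x))

/-- the diagonal set -/
def DS (A : Set W) : Set W := {w | ∃ (i c : ℕ) (x : W), w = pre i (pre c x) ∧ DD A i c x}

/-- D1. Counting: there are `2^(t+1) - 1 ≤ 2 n - 1` words of length `≤ t = log_2 n` (`n ≥ 1`; for `n = 0` the set is empty). -/
def D1_stmt : Prop := ∀ (n : ℕ) (T : Finset W), (∀ a ∈ T, 2 ^ a.length ≤ n) → T.card ≤ 2 * n

/-- D2. `DS A` is r.e. (R2, R3, R4, R5, X8, K1.) -/
def D2_stmt : Prop := ∀ A : Set W, RE A → RE (DS A)

/-- D3. The reduction. `DS A` at `pre i (pre c x)` is `DD A i c x` (`pre` is injective, K3).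
(1) There is `c ≤ 2 |x|` with a long value: let `T` be the finite set of all `a ∈ A` with `2^|a| ≤ |x|` (finite: finitely many words of bounded
length), `c = T.card ≤ 2 |x|` (D1). If the value `u = uu i c x` were short, then `DD` says: some duplicate-free list of `c`
elements of `T` avoids `u`, i.e. `u ∉ T` (the list is all of `T`; conversely use `T.toList`), i.e. `u ∉ A` as `2^|u| ≤ |x|`. But `DD ↔ u ∈ A`. So
`lng i (cm i x) x = true` and `|x| < 2^|GG i x|`.
(2) So for all `x`: `GG i x ∈ A ↔ (no n < enc x collides) ∧ (x ∈ KS ∨ a larger word collides)`. If `GG i` is not injective, take a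
collision `x1`, `x2` with `enc x1 < enc x2` and `enc x1` minimal among all words with this value: `GG i x1 ∈ A`, `GG i x2 ∉ A`, contradiction.
(`∀ n < enc x, enc (dw n) < enc x → GG i (dw n) ≠ GG i x` says that there is no `x'` with `enc x' < enc x` and `GG i x' = GG i x`.)
(3) So there are no collisions and `x ∈ KS ↔ GG i x ∈ A`. Uses K3, D1. -/
def D3_stmt : Prop := ∀ (A : Set W) (i : ℕ), (∀ w, w ∈ DS A ↔ E i w ∈ A) →
  Injective (GG i) ∧ (∀ x, x ∈ KS ↔ GG i x ∈ A) ∧ ∀ x, x.length < 2 ^ (GG i x).length

/-- D4. `GG i` in polynomial time. `lng`: `2^m` cut off at `N = |x| + 1`: iterate `y ↦ min (2 y) N`, `m` times (`pt_citer`). `find?`, `range`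
are in the library. Uses X9, K3. -/
def D4_stmt : Prop := ∀ i, PT (GG i)

/-- D5. Every complete set has a one-one, exponentially honest reduction from `KS`. Uses D2, D3, D4, X5, X9. -/
def D5_stmt : Prop := ∀ A : Set W, Complete A → ∃ f : W → W, PT f ∧ Injective f ∧
  (∀ x, x ∈ KS ↔ f x ∈ A) ∧ ∀ x, x.length < 2 ^ (f x).length

/-! ## Q. The decoder -/

/-- the candidate functions `g` -/
def gk (k : ℕ) : W → W := E (Nat.unpair k).1

/-- their candidate inverses -/
def mk (k : ℕ) : W → W := E (Nat.unpair k).2

/-- The pair `k` is falsified before `t`: it is not an inverse pair with range in the range of `f (pre b ·)`. -/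
def Fal (f : W → W) (b k t : ℕ) : Prop :=
  ∃ n < t, mk k (gk k (dw n)) ≠ dw n ∨ ∀ y : W, f (pre b y) ≠ gk k (dw n)

/-- what the program `b` accepts: `f (pre b y)` is decoded by some pair `k` with label `(k, T)` as `z ∈ KS`, all smaller pairs are falsified,
and `k` is not falsified before any time which occurs in a label. -/
def QQ (f : W → W) (b : ℕ) (y : W) : Prop :=
  ∃ (k T : ℕ) (z : W), mk k (f (pre b y)) = pre k (pre T z) ∧ z ∈ KS ∧
    (∀ k' < k, ∃ t, Fal f b k' t) ∧
    ∀ k' < y.length + 1, ∀ T' < (mk k' (f (pre b y))).length,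
      (∃ z' : W, mk k' (f (pre b y)) = pre k' (pre T' z')) → ¬ Fal f b k T'

/-- Q1. `Fal` is decidable: `∀ y, f (pre b y) ≠ u` only needs to be checked for `|y| < 2^|u|` (`|pre b y| < 2^|f (pre b y)|`), i.e. for
`enc y < B (2^|u|)` (R5). Uses R3, R5, X8. -/
def Q1_stmt : Prop := ∀ f : W → W, Computable f → (∀ x, x.length < 2 ^ (f x).length) →
  ComputablePred (fun p : ℕ × ℕ × ℕ => Fal f p.1 p.2.1 p.2.2)

/-- Q2. `QQ` is r.e. (The condition `∃ z', v = pre k' (pre T' z')` is decidable: `z' = v.drop (k' + T' + 2)`.) Uses Q1, R2, R3, R5, X8, K1. -/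
def Q2_stmt : Prop := ∀ f : W → W, Computable f → (∀ x, x.length < 2 ^ (f x).length) →
  REPred (fun p : ℕ × W => QQ f p.1 p.2)

/-- Q3. The main argument. Let `k0` be a pair (X9) `gk k0 = g`, `mk k0 = m`; it is never falsified. Let `k` be the least pair which
is never falsified, and `T` such that all `k' < k` are falsified before `T` (`Fal` is monotone in `t`; maximum). Then `mk k (gk k z) = z`
and every `gk k z` is in the range of `F = f (pre b ·)`. Let `e z = gk k (pre k (pre T z))`; its inverse is `mk k` followed by dropping `k + T + 2` symbols.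
Let `y z` be the unique word with `F (y z) = e z`. Claim: if `k ≤ |y z|` then `QQ f b (y z) ↔ z ∈ KS`.
`←`: take `k, T, z` (a never falsified pair is not falsified before any `T'`). `→`: let `k1, T1, z1` be given by `QQ`. `k1 ≤ k` as `k` is never
falsified. If `k1 < k`, then `k` itself is a label at `y z` (`T < length`), so `¬ Fal f b k1 T`, contradiction. So `k1 = k` and
`pre k (pre T1 z1) = pre k (pre T z)`, `z1 = z`. So `z ∈ KS ↔ pre b (y z) ∈ KS ↔ e z ∈ A`.
The words `z` with `|y z| < k` are finitely many (`y` is injective); let all of them be shorter than `N`. By K2 `e' z = e (pre a (pre N z))` is right for all `z`.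
Uses X9, K2, K3. -/
def Q3_stmt : Prop := ∀ (A : Set W) (f : W → W) (b : ℕ), PT f → Injective f → (∀ x, x ∈ KS ↔ f x ∈ A) →
  (∀ y, pre b y ∈ KS ↔ QQ f b y) →
  (∃ g m : W → W, PT g ∧ PT m ∧ (∀ x, m (g x) = x) ∧ ∀ z, ∃ y, f (pre b y) = g z) →
  ∃ e m : W → W, PT e ∧ PT m ∧ (∀ x, m (e x) = x) ∧ ∀ z, z ∈ KS ↔ e z ∈ A

/-! ## B. Isomorphism -/

/-- the hypothesis on the reductions `A ≤ B` in the theorem of Berman and Hartmanis -/
def LR (A B : Set W) : Prop := ∃ e m : W → W, PT e ∧ PT m ∧ (∀ x, m (e x) = x) ∧
  (∀ x, x.length < (e x).length) ∧ ∀ x, x ∈ A ↔ e x ∈ B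

/-- isomorphism in terms of the library -/
def LI (A B : Set W) : Prop := ∃ h g : W → W, PT h ∧ PT g ∧ (∀ x, g (h x) = x) ∧ (∀ x, h (g x) = x) ∧
  ∀ x, x ∈ A ↔ h x ∈ B

/-- one step of the chain: state `(side, word)`; side `true`: the word is in the world `A`, the next word is its preimage under `e2 : B → A`;
side `false`: the word is in the world `B`, the next word is its preimage under `e1 : A → B`. Stops if there is no preimage. -/
def bk (e1 m1 e2 m2 : W → W) (s : Bool × W) : Bool × W :=
  bif s.1 then (bif decide (e2 (m2 s.2) = s.2) then (false, m2 s.2) else s)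
  else (bif decide (e1 (m1 s.2) = s.2) then (true, m1 s.2) else s)

/-- the side where the chain of the state `s` stops (after at most `|word| + 1` steps) -/
def side (e1 m1 e2 m2 : W → W) (s : Bool × W) : Bool := ((bk e1 m1 e2 m2)^[s.2.length + 1] s).1

/-- the isomorphism: `x` goes to `e1 x` if its chain stops in the world `A`, to `m2 x` otherwise -/
def bhh (e1 m1 e2 m2 : W → W) (x : W) : W :=
  bif side e1 m1 e2 m2 (true, x) then e1 x else m2 x

/-- its inverse -/
def bhg (e1 m1 e2 m2 : W → W) (y : W) : W :=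
  bif side e1 m1 e2 m2 (false, y) then m1 y else e2 y

/-- B1. Combinatorics (Cantor, Bernstein, Myhill). The length of the word decreases in every proper step, so after `|word| + 1` steps the
state is a fixed point of `bk`, and all later iterates agree. Hence `side s = side (bk s)`. Chain of `(true, x)`: if `e2 (m2 x) = x` then
`side (true, x) = side (false, m2 x)`; otherwise `side (true, x) = true`. Chain of `(false, y)`: if `e1 (m1 y) = y`, `side (false, y) =
side (true, m1 y)`, otherwise `false`. And `side (false, e1 x) = side (true, x)`, `side (true, e2 y) = side (false, y)`. So: if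
`side (true, x) = true`, then `h x = e1 x`, `side (false, e1 x) = true`, `g (e1 x) = m1 (e1 x) = x`. If it is `false`, then `e2 (m2 x) = x`, `h x = m2 x =: y`,
`side (false, y) = false`, `g y = e2 y = x`. Similarly `h (g y) = y`. Membership: `x ∈ A ↔ e1 x ∈ B`, and `x = e2 y ∈ A ↔ y ∈ B`. -/
def B1_stmt : Prop := ∀ (A B : Set W) (e1 m1 e2 m2 : W → W), (∀ x, m1 (e1 x) = x) → (∀ x, m2 (e2 x) = x) →
  (∀ x, x.length < (e1 x).length) → (∀ x, x.length < (e2 x).length) →
  (∀ x, x ∈ A ↔ e1 x ∈ B) → (∀ x, x ∈ B ↔ e2 x ∈ A) →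
  (∀ x, bhg e1 m1 e2 m2 (bhh e1 m1 e2 m2 x) = x) ∧ (∀ y, bhh e1 m1 e2 m2 (bhg e1 m1 e2 m2 y) = y) ∧
  ∀ x, x ∈ A ↔ bhh e1 m1 e2 m2 x ∈ B

/-- B2. Polynomial time: `pt_iter`; the words in the chain are not longer than the first one (if `e2 (m2 x) = x` then `|m2 x| < |x|`). -/
def B2_stmt : Prop := ∀ (e1 m1 e2 m2 : W → W), PT e1 → PT m1 → PT e2 → PT m2 →
  (∀ x, x.length < (e1 x).length) → (∀ x, x.length < (e2 x).length) →
  PT (bhh e1 m1 e2 m2) ∧ PT (bhg e1 m1 e2 m2)

/-- B3. Making a reduction from `KS` length increasing. `m` is polynomially bounded (`PT.size`): `sz (m v) ≤ c.eval (sz v)`. Let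
`J n = c.eval (4 n + 1)` (in unary `PT`), `e' x = e (pre a (pre (J |x|) x))` with `a` from K2. If `|e' x| ≤ |x|` then
`J |x| < |pre a (pre (J |x|) x)| = |m (e' x)| ≤ sz (m (e' x)) ≤ c.eval (4 |x| + 1) = J |x|` (`sz v ≤ 4 |v| + 1`), contradiction. Inverse: `m`, drop `a + 1`, `strip`
(K3). Uses K2, K3. -/
def B3_stmt : Prop := ∀ (A : Set W), (∃ e m : W → W, PT e ∧ PT m ∧ (∀ x, m (e x) = x) ∧ ∀ z, z ∈ KS ↔ e z ∈ A) → LR KS A

/-- B4. `KS ≥ A` by `pre a` (K2), length increasing; B1, B2. Uses K2, K3, B1, B2, B3. -/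
def B4_stmt : Prop := ∀ (A : Set W), RE A →
  (∃ e m : W → W, PT e ∧ PT m ∧ (∀ x, m (e x) = x) ∧ ∀ z, z ∈ KS ↔ e z ∈ A) → LI KS A

/-! ## F. The theorem -/

/-- the hypothesis, for all one-one functions -/
def HypA : Prop := ∀ f : W → W, PTime f → Injective f → ∃ g, PInv g ∧ Set.range g ⊆ Set.range f

/-- the hypothesis, for exponentially honest functions -/
def HypH : Prop := ∀ f : W → W, PTime f → Injective f → (∀ x, x.length < 2 ^ (f x).length) →
  ∃ g, PInv g ∧ Set.range g ⊆ Set.range f

/-- F1. The library and Mathlib's machines: `PTime f ↔ PT f` (X1, X2, X5). `KS` is complete (K1, K2, K3). If `C` is complete and `f` is one-one and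
`PTime`, then `f '' C` is complete. (`f '' C` is r.e.: `∃ x, x ∈ C ∧ f x = y`, R2, R3, X8, X9; a `PT` function is computable by X8, X9.) -/
def F1_stmt : Prop := (∀ f : W → W, PTime f ↔ PT f) ∧ Complete KS ∧ (∀ f : W → W, PTime f → Computable f) ∧
  ∀ (C : Set W) (f : W → W), Complete C → PTime f → Injective f → Complete (f '' C)

/-- F2. `HypH → Question`. For complete `A` take `f` from D5, `b` from K1 and Q2, `F y = f (pre b y)` satisfies the assumptions of `HypH` (`|y| < |pre b y|`),
so Q3 and B4 give `LI KS A`. For two complete sets compose. Uses F1, D5, K1, K3, Q2, Q3, B4. -/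
def F2_stmt : Prop := HypH → Question

/-- F3. If `C` is complete, `f` one-one and `PTime` and `PIso C (f '' C)`, then `f '' C` has a nonempty paddable subset of `range f` (itself):
`KS` is paddable by `q (pr x y) = pre a (pre (1^|x| 0 x y coded as a word) ..)`: by K2 there is `a'` with `pre a' (pr x y) ∈ KS ↔ x ∈ KS` (the set
`{pr x y | x ∈ KS}` is r.e.), so `q w = pre a' w` works; paddability is invariant under `PIso`; here take `C = KS`. `KS` is not empty.
Uses F1, K1, K2, K3, R2, R3, R5. -/
def F3_stmt : Prop := ∀ f : W → W, PTime f → Injective f → PIso KS (f '' KS) →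
  ∃ L : Set W, L ⊆ Set.range f ∧ L.Nonempty ∧ Paddable L

/-- F4. A nonempty paddable subset of the range gives `g y = q (pr x0 y)`, `x0 ∈ L` (one-one, inverse: `r`, then dropping `2 |x0| + 1` symbols).
Uses F1. -/
def F4_stmt : Prop := ∀ f : W → W, (∃ L : Set W, L ⊆ Set.range f ∧ L.Nonempty ∧ Paddable L) →
  ∃ g, PInv g ∧ Set.range g ⊆ Set.range f

/-- THE THEOREM -/
def RI_stmt : Prop :=
  (Question ↔ HypA) ∧ (Question ↔ HypH) ∧ (Question ↔ ¬ ∃ f, Scrambling f) ∧
    (Question ↔ ∀ (C : Set W) (f : W → W), Complete C → PTime f → Injective f → PIso C (f '' C))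

/-- FIN. From F1, F2, F3, F4: `Question → last item` (F1), `last item → no scrambling` (F3 with `C = KS`), `no scrambling → HypA` (F4),
`HypA → HypH → Question` (F2). -/
theorem FIN (hF1 : F1_stmt) (hF2 : F2_stmt) (hF3 : F3_stmt) (hF4 : F4_stmt) : RI_stmt := by
  have h1 : Question → ∀ (C : Set W) (f : W → W), Complete C → PTime f → Injective f →
      PIso C (f '' C) := fun hQ C f hC hf hi => hQ C (f '' C) hC (hF1.2.2.2 C f hC hf hi)
  have h2 : (∀ (C : Set W) (f : W → W), Complete C → PTime f → Injective f → PIso C (f '' C)) →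
      ¬ ∃ f, Scrambling f := by
    rintro h ⟨f, hf, hi, hL⟩
    obtain ⟨L, hL1, hL2, hL3⟩ := hF3 f hf hi (h KS f hF1.2.1 hf hi)
    exact hL L hL1 hL2 hL3
  have h3 : (¬ ∃ f, Scrambling f) → HypA := by
    intro h f hf hi
    refine hF4 f ?_
    by_contra hne
    refine h ⟨f, hf, hi, fun L hL1 hL2 hL3 => hne ⟨L, hL1, hL2, hL3⟩⟩
  have h4 : HypA → HypH := fun h f hf hi _ => h f hf hi
  exact ⟨⟨fun h => h3 (h2 (h1 h)), fun h => hF2 (h4 h)⟩, ⟨fun h => h4 (h3 (h2 (h1 h))), hF2⟩,
    ⟨fun h => h2 (h1 h), fun h => hF2 (h4 (h3 h))⟩,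
    ⟨h1, fun h => hF2 (h4 (h3 (h2 h)))⟩⟩

end Pool.Agent.RI
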