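import Pool.Agent.helper55.RI.All

/-!
# Project rg (MP_2bd605_lc), part G: the question for other classes of sets

THEOREM G. For every class `𝒞` of sets of words which contains all r.e. sets, is closed under recursive positive truth-table
reductions and has a set which is complete for polynomial time reductions: any two such complete sets are polynomially isomorphic if
and only if this holds for the r.e. sets (`Question`). In particular for all `Σ_n`, `n ≥ 1`.

## Rules
File `Pool/Agent/<seat>/RI/XX.lean`: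

  import Pool.Agent.helper55.RI.SpecG
  set_option autoImplicit false
  namespace Pool.Agent.RI
  open Pool.Agent.helper62 Prog Function Pool.Agent.helper81.PL
  theorem XX (hYY : YY_stmt) ... : XX_stmt := ...
  end Pool.Agent.RI

Hypotheses: other statements of this file (no circles). Auxiliary lemmas are prefixed `XX_`. No sorry, no double quotes. All statements of
`Pool/Agent/helper55/RI/Spec.lean` are proved and may be used: theorems `R1 uR2 R3 R4 R5 X8 uX5 uX9 uK1 uK2 K3 D1 uD5 uF1 F4 B1 B2 uB3 uB4 uF2` of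
`Pool.Agent.helper55.RI.All` (and `FIN`). Polynomial time library: see the docstring of `Spec.lean` (`PT f`, `fun_prop`, `pt_iter`, `pt_citer`; unary numbers).
-/

set_option autoImplicit false
set_option linter.unusedVariables false

namespace Pool.Agent.RI

open Pool.Agent.helper62 Prog Function Pool.Agent.helper81.PL

/-! ## Definitions -/

/-- first component of a pair `pr x y` -/
def fs (w : W) : W := (w.drop (inN w + 1)).take (inN w)

/-- second component of a pair `pr x y` -/
def sn (w : W) : W := w.drop (2 * inN w + 1)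

/-- The classes: all r.e. sets belong to `𝒞`, and `𝒞` is closed under recursive positive truth-table reductions (in disjunctive
normal form). -/
structure Good (𝒞 : Set (Set W)) : Prop where
  re : ∀ A : Set W, RE A → A ∈ 𝒞
  tt : ∀ A ∈ 𝒞, ∀ F : W → List (List W), Computable F →
    {x : W | ∃ ℓ ∈ F x, ∀ a ∈ ℓ, a ∈ A} ∈ 𝒞

/-- `C` is complete in `𝒞` for polynomial time many-one reductions -/
def CompleteIn (𝒞 : Set (Set W)) (C : Set W) : Prop := C ∈ 𝒞 ∧ ∀ A ∈ 𝒞, Red A C

/-- any two complete sets are polynomially isomorphic -/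
def IsoIn (𝒞 : Set (Set W)) : Prop :=
  ∀ A B : Set W, CompleteIn 𝒞 A → CompleteIn 𝒞 B → PIso A B

/-- the cylinder over `A` -/
def cyl (A : Set W) : Set W := {w | fs w ∈ A}

/-- all words of length `< n`, ordered by length -/
def wds : ℕ → List W
  | 0 => []
  | n + 1 => [] :: (wds n).flatMap (fun w => [false :: w, true :: w])

/-- `u` is in the range of `GG i` (correct if `GG i` is exponentially honest) -/
def inRg (i : ℕ) (u : W) : Bool := (wds (2 ^ u.length)).any (fun y => decide (GG i y = u))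

/-- The pair `k` is falsified before `t`: it is not an inverse pair with range in the range of `GG i`. -/
def falG (i k t : ℕ) : Bool :=
  (List.range t).any (fun n => !decide (mk k (gk k (dw n)) = dw n) || !inRg i (gk k (dw n)))

/-- the first pair which is not falsified before `|x|` -/
def kkG (i : ℕ) (x : W) : ℕ :=
  ((List.range (x.length + 1)).find? (fun k => !falG i k x.length)).getD 0

/-- the decoded word -/
def tauG (i : ℕ) (x : W) : W := mk (kkG i x) (GG i x)

/-- the diagonal predicate with the target predicate `T` (compare `DD`) -/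
def DDT (A : Set W) (T : ℕ → W → Prop) (i c : ℕ) (x : W) : Prop :=
  (lng i c x = false ∧ ∃ ℓ : List W, ℓ.Nodup ∧ ℓ.length = c ∧
    (∀ a ∈ ℓ, a ∈ A ∧ 2 ^ a.length ≤ x.length) ∧ uu i c x ∉ ℓ) ∨
  (lng i c x = true ∧ (∀ x' : W, enc x' < enc x → GG i x' ≠ GG i x) ∧
    (T i x ∨ ∃ x' : W, enc x < enc x' ∧ GG i x' = GG i x))

/-- the diagonal set -/
def DST (A : Set W) (T : ℕ → W → Prop) : Set W :=
  {w | ∃ (i c : ℕ) (x : W), w = pre i (pre c x) ∧ DDT A T i c x}

/-- the target predicate -/
def TG (A : Set W) (i : ℕ) (x : W) : Prop := fs (tauG i x) ∈ A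

/-- the arithmetical classes: `Sig n` is the class of the `Σ_(n+1)` sets. -/
def Sig : ℕ → Set (Set W)
  | 0 => {A | RE A}
  | n + 1 => {A | ∃ B ∈ Sig n, ∀ x : W, x ∈ A ↔ ∃ y : W, pr x y ∉ B}

/-! ## G. General classes -/

/-- G1 (short). Pairs. `inN w` is the number of leading `true`s if `w` contains `false` (`inN` is in `Pool/Agent/helper81/PL/SpecP.lean`, `INW1 : PT inN`; compare `K3`,
`Pool/Agent/helper93/RI/K3.lean`). `Primrec`: `inN` through `Primrec.list_getD`/`list_range`/`find?` (see G2 for `find?`), or note that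
`fs`, `sn` are `PT`, hence `E k` for some `k` (`uX9`), and `E k` is primitive recursive (`Primrec₂ E` from `X8_ev_primrec`, `Primrec.decode`). -/
def G1_stmt : Prop := PT fs ∧ PT sn ∧ PT (fun p : W × W => pr p.1 p.2) ∧
  (∀ x y, fs (pr x y) = x) ∧ (∀ x y, sn (pr x y) = y) ∧ (∀ w, (fs w).length ≤ w.length) ∧
  (∀ x y, (pr x y).length = 2 * x.length + 1 + y.length)

/-- G2 (medium). Primitive recursive toolbox. Every `PT` function on words is `E k` for some `k` (`uX9`) and `Primrec₂ E`
(`X8_ev_primrec` in `Pool/Agent/helper31/RI/X8.lean`, `Primrec.decode`, `Primrec.option_getD`). `find?` on lists: `Primrec.listFilter` and `head?`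
(`List.head?_filter`), or a fold. `any`/`all`: `Primrec.list_foldl`-type or `PrimrecPred.exists_mem_list`. `enc`, `dw`: `Primrec.encode`, `Primrec.decode`. -/
def G2_stmt : Prop :=
  Primrec₂ E ∧ (∀ f : W → W, PT f → Primrec f) ∧ Primrec enc ∧ Primrec dw ∧ Primrec₂ pre ∧ Primrec₂ pr ∧
  (∀ (n : ℕ) (w : W), w ∈ wds n ↔ w.length < n) ∧ Primrec wds ∧
  Primrec (fun p : ℕ × ℕ × W => uu p.1 p.2.1 p.2.2) ∧ Primrec (fun p : ℕ × ℕ × W => lng p.1 p.2.1 p.2.2) ∧
  Primrec₂ GG ∧
  (∀ (α : Type) [Primcodable α] (l : α → List W) (p : α → W → Bool), Primrec l → Primrec₂ p →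
    Primrec (fun a => (l a).any (p a)) ∧ Primrec (fun a => (l a).all (p a)) ∧
    Primrec (fun a => (l a).find? (p a)) ∧ Primrec (fun a => (l a).filter (p a))) ∧
  (∀ (α : Type) [Primcodable α] (l : α → ℕ) (p : α → ℕ → Bool), Primrec l → Primrec₂ p →
    Primrec (fun a => (List.range (l a)).any (p a)) ∧ Primrec (fun a => (List.range (l a)).all (p a)) ∧
    Primrec (fun a => ((List.range (l a)).find? (p a)).getD 0))

/-- G3 (short). `tauG` is primitive recursive. Uses G2. (`gk k = E (unpair k).1`, `mk k = E (unpair k).2`.) -/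
def G3_stmt : Prop := Primrec₂ tauG

/-- G4 (medium). The diagonal set is in the class. Uses G1, G2, G3.
PROOF. (1) The set `L = {pre i x | ∃ x', enc x < enc x' ∧ GG i x' = GG i x}` is r.e. (R-toolbox: `uR2`, `R3`, `R5`), so it is in `𝒞` and there is a `PT` function `f` with
`w ∈ L ↔ f w ∈ A` (`uX5` gives `PT` from `PTime`). (2) Let `F w = []` if `w` is not of the form `pre i (pre c x)`; if `w = pre i (pre c x)` and `lng i c x = false`: the list of all sublists of length `c` of
the list `S` of all words `a` with `2^|a| ≤ |x|`, `a ≠ uu i c x` (`S = (wds (|x| + 1)).filter ..` without duplicates; sublists by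
`S.foldr (fun a L => L ++ L.map (a :: ·)) [[]]`, `Primrec.list_foldr`, then `filter`); a duplicate-free list `ℓ` of elements of `S` is a permutation of a
sublist of `S` and only its elements matter (`List.Nodup`, `List.sublists`, `List.mem_sublists`, or `List.subperm_of_subset` and `Subperm`). If `lng i c x = true` and no `x'` with
`enc x' < enc x` has the same value: `[[fs (tauG i x)], [f (pre i x)]]`; otherwise `[]`. `F` is primitive recursive. Parsing: `w = pre a y` iff with `a = inN w`,
`y = w.drop (inN w + 1)` we have `pre a y = w`. (3) `w ∈ DST A (TG A) ↔ ∃ ℓ ∈ F w, ∀ a ∈ ℓ, a ∈ A`. -/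
def G4_stmt : Prop := ∀ (𝒞 : Set (Set W)) (A : Set W), Good 𝒞 → CompleteIn 𝒞 A → DST A (TG A) ∈ 𝒞

/-- G5 (short). Adapt D3 (`Pool/Agent/helper97/RI/D3.lean`): there `x ∈ KS` is replaced by an arbitrary predicate `T i x`, and the enumeration of
the words by numbers by a quantifier over words. Duplicate-free lists: `ℓ.Nodup`. -/
def G5_stmt : Prop := ∀ (A : Set W) (T : ℕ → W → Prop) (i : ℕ), (∀ w, w ∈ DST A T ↔ E i w ∈ A) →
  Injective (GG i) ∧ (∀ x, T i x ↔ GG i x ∈ A) ∧ ∀ x, x.length < 2 ^ (GG i x).length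

/-- G6 (medium). The decoder. Uses G1.
PROOF. As `2^|F y| > |y|` for `F = GG i`, `inRg i u = true ↔ ∃ y, F y = u`. `falG i k t` is monotone in `t`. The pair `k0` with `gk k0 = g`, `mk k0 = m` (`uX9`) is never
falsified. Let `k` be the least pair which is never falsified, `T` such that all smaller pairs are falsified before `T`. Then `mk k (gk k z) = z`, every `gk k z`
is `F (y z)` for a unique word `y z`, `y` is injective; and `kkG i x = k` if `|x| ≥ max k T`, so `tauG i (y z) = mk k (gk k z) = z` if `|y z| ≥ max k T`. The words `z`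
with `|y z| < max k T` are finitely many; let them all be shorter than `N`. Put `e z = gk k (pr (fs z) (pre N z))`: as `|pr ..| > N`,
`fs z ∈ A ↔ fs (tauG i (y _)) ∈ A ↔ F (y _) = e z ∈ A`. Inverse: `mk k`, then `sn`, then removing `pre N` (`K3`: `strip`). -/
def G6_stmt : Prop := ∀ (A : Set W) (i : ℕ), Injective (GG i) → (∀ x, x.length < 2 ^ (GG i x).length) →
  (∀ x, TG A i x ↔ GG i x ∈ A) →
  (∃ g m : W → W, PT g ∧ PT m ∧ (∀ x, m (g x) = x) ∧ ∀ z, ∃ y, GG i y = g z) →
  ∃ e m : W → W, PT e ∧ PT m ∧ (∀ x, m (e x) = x) ∧ ∀ z, z ∈ cyl A ↔ e z ∈ A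

/-- G7 (medium). The theorem of Berman and Hartmanis. Uses G1 and `B1`, `B2`.
PROOF. (a) `cyl A → A`: as in `B3` (`Pool/Agent/helper50/RI/B3.lean`) with the padding `z ↦ pr (fs z) (pre (J |z|) z)`, which does not change the membership in
`cyl A`, `|pr ..| > J |z|`. `A → cyl A`: `x ↦ pr x x`, inverse `sn`, `|pr x x| > |x|`. (b) `A ≤ B` by `f`: `w ↦ pr (f (fs w)) w`, inverse `sn`, length-increasing. (c) composition and
inverse of isomorphisms. -/
def G7_stmt : Prop :=
  (∀ A : Set W, (∃ e m : W → W, PT e ∧ PT m ∧ (∀ x, m (e x) = x) ∧ ∀ z, z ∈ cyl A ↔ e z ∈ A) → LI (cyl A) A) ∧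
  (∀ A B : Set W, Red A B → Red B A → LI (cyl A) (cyl B)) ∧
  (∀ A B C : Set W, LI A B → LI B C → LI A C) ∧ (∀ A B : Set W, LI A B → LI B A) ∧
  (∀ A B : Set W, LI A B ↔ PIso A B)

/-- G8 (short). `cyl A` is complete. Uses G1. (`tt` with `F w = [[fs w]]`; `x ∈ A ↔ pr x x ∈ cyl A`.) -/
def G8_stmt : Prop := ∀ (𝒞 : Set (Set W)) (A : Set W), Good 𝒞 → CompleteIn 𝒞 A →
  CompleteIn 𝒞 (cyl A) ∧ A.Nonempty

/-- G9 (medium). Images. Uses G1, G2. PROOF. `f` is `PT` (`uX5`), `y ∈ f '' C ↔ ∃ ℓ ∈ F y, ∀ a ∈ ℓ, a ∈ C` with `F y` the list of all `[x]`, `|x| < 2^|y|`, `f x = y`, computable; the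
reduction of `C` to `f '' C` is `f`. -/
def G9_stmt : Prop := ∀ (𝒞 : Set (Set W)) (C : Set W) (f : W → W), Good 𝒞 → CompleteIn 𝒞 C → PTime f → Injective f →
  (∀ x, x.length < 2 ^ (f x).length) → CompleteIn 𝒞 (f '' C)

/-- G10 (short). `cyl A` is paddable: `q w = pr (fs (fs w)) w`: `fs (q (pr x y)) = fs x`, inverse `sn`. If it is isomorphic to `f '' cyl A`, then the latter is paddable
(see F3, `Pool/Agent/helper55/RI/F3.lean`), and `F4` applies. Uses G1. -/
def G10_stmt : Prop := ∀ (A : Set W) (f : W → W), A.Nonempty → PTime f → Injective f → PIso (cyl A) (f '' cyl A) →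
  ∃ g, PInv g ∧ Set.range g ⊆ Set.range f

/-- G. The theorem for general classes (assembly, helper55). -/
def G_stmt : Prop := ∀ 𝒞 : Set (Set W), Good 𝒞 → (∃ C, CompleteIn 𝒞 C) → (IsoIn 𝒞 ↔ Question)

/-! ## S. The arithmetical classes -/

/-- S1 (medium). The r.e. sets. PROOF. `x ∈ A ↔ ∃ n, T (x, n)` with `T` computable and monotone (R1). `∃ ℓ ∈ F x, ∀ a ∈ ℓ, a ∈ A` iff `∃ j, ∃ ℓ, (F x)[j]? = some ℓ ∧ ∀ a ∈ ℓ, a ∈ A`, use the
closure properties `uR2` (existential quantifiers over `ℕ` and lists, bounded quantifiers over the elements of a computable list) and `R3`. -/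
def S1_stmt : Prop := Good (Sig 0) ∧ ∃ C, CompleteIn (Sig 0) C

/-- S2 (medium). PROOF. `re`: by induction every r.e. set `A` is in `Sig n`, so `A = {x | ∃ n, T (x, n)}` with `T` decidable and `B = {pr x y | ¬ T (x, |y|)}`, which is decidable, hence r.e., hence in
`Sig n`. `tt`: let `A` be given by `B ∈ Sig n`: `x ∈ A ↔ ∃ y, pr x y ∉ B`. `∃ ℓ ∈ F x, ∀ a ∈ ℓ, a ∈ A` iff there are `j` and a list `ys : List W` with `(F x)[j]? = some ℓ`, `ys.length = ℓ.length` and
`pr a b ∉ B` for all pairs `(a, b)` of `ℓ.zip ys`. Code `(j, ys)` by a word `y` (`dw`, `enc`: `Encodable.decode (α := ℕ × List W)` of `|y|` or of `enc y`): it is equivalent to `∃ y, pr x y ∉ B'` where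
`B' = {v | for (j, ys) coded by sn v, x = fs v: (F x)[j]? = none, or the lengths differ, or ∃ (a, b) ∈ ℓ.zip ys, pr a b ∈ B}`, and
`B'` is obtained from `B ⊕ ω` by a positive truth-table reduction: if the first two conditions hold use the list `[[]]`, otherwise the list of all `[pr a b]`. -/
def S2_stmt : Prop := ∀ n, Good (Sig n) → Good (Sig (n + 1))

/-- S3 (medium). PROOF. `C' = {w | ∃ i x, w = pre i x ∧ ∃ y, E i (pr x y) ∉ C}`. Put `B' = {v | E i (pr x y) ∈ C}` for `fs v = pre i x`, `sn v = y` (and `B'` contains all `v` for which `fs v` is not of the form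
`pre i x`): `B' ∈ Sig n` by `tt`. Let `A` be given by `B ∈ Sig n`, and `f` a reduction of `B` to `C`, `f = E i` (`uX5`, `uX9`). Then `x ∈ A ↔ ∃ y, pr x y ∉ B ↔ ∃ y, E i (pr x y) ∉ C ↔ pre i x ∈ C'`, and
`pre i` is `PT` (K3), hence `PTime` (`uF1`). -/
def S3_stmt : Prop := ∀ n, Good (Sig n) → (∃ C, CompleteIn (Sig n) C) → ∃ C, CompleteIn (Sig (n + 1)) C

end Pool.Agent.RI
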