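import Pool.Agent.helper55.RI.SpecG
import Pool.Agent.helper62.PL.PAD

/-!
# Project rg (MP_2bd605_lc), part V: exponential time

THEOREM V. Any two `EXP`-complete sets are polynomially isomorphic if and only if for every one-one length-increasing polynomial time `f` there is a
`g`, one-one, computable in polynomial time together with its inverse, with `range g ⊆ range f`; so a positive answer to the question implies the
isomorphism theorem for `EXP`, and the question is equivalent to: isomorphism theorem for `EXP`, and every complete r.e. set is complete under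
one-one length-increasing reductions.

Rules as in `SpecG.lean` (`import Pool.Agent.helper55.RI.SpecV`). Clocks: numbers are UNARY in the library, so `N = 2^((|x|+2)^d)` as an input of a `PT` function
gives exponential time. `Pool.Agent.helper81.PL.PAD` is the theorem `PAD_stmt` (`Pool/Agent/helper81/PL/SpecP.lean`).
-/

set_option autoImplicit false
set_option linter.unusedVariables false

namespace Pool.Agent.RI

open Pool.Agent.helper62 Prog Function Pool.Agent.helper81.PL

/-! ## Definitions -/

/-- `A` is decided by a Turing machine (of Mathlib, which writes one letter as the answer) in time `2^p(n)`, `p` a polynomial. -/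
def EXPT (A : Set W) : Prop := ∃ (f : W → Bool) (c : Polynomial ℕ),
  MachineTime (id : W → List Bool) f (fun w => 2 ^ c.eval w.length) ∧ ∀ w, w ∈ A ↔ f w = true

/-- the clock -/
def ck (d : ℕ) (x : W) : ℕ := 2 ^ ((x.length + 2) ^ d)

/-- exponential time in terms of the library -/
def EXPP (A : Set W) : Prop := ∃ (r : W × ℕ → Bool) (d : ℕ), PT r ∧ ∀ x, x ∈ A ↔ r (x, ck d x) = true

/-- the maximal blocks of `true` followed by `false`, as a list of numbers (last one first) -/
def toks (w : W) : List ℕ :=
  (w.foldl (fun (p : ℕ × List ℕ) b => bif b then (p.1 + 1, p.2) else (0, p.1 :: p.2)) (0, [])).2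

/-- the instruction number `j` in the list of numbers `l` -/
def insOf (l : List ℕ) (j : ℕ) : Ins :=
  (l.getD (6 * j + 2) 0, l.getD (6 * j + 3) 0, leb 1 (l.getD (6 * j + 4) 0), l.getD (6 * j + 5) 0,
    l.getD (6 * j + 6) 0, l.getD (6 * j + 7) 0)

/-- the program with the code word `p` -/
def parse (p : W) : List Ins × ℕ × ℕ :=
  ((List.range ((toks p).getD 0 0)).map (insOf ((toks p).drop 1)), (toks p).getD 1 0, (toks p).getD 2 0)

/-- evaluation with a clock -/
def evc (q : List Ins × ℕ × ℕ) (w : W) (N : ℕ) : W :=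
  ((gstep q.1)^[min ((w.length + 2) ^ q.2.2) N] (0, w :: List.replicate q.2.1 [])).2.headD []

/-- the function with the code word `p` -/
def EW (p w : W) : W := ev (parse p) w

/-- the same with a clock -/
def EWc (p w : W) (N : ℕ) : W := evc (parse p) w N

/-- all words of length `< m`, if there are at most `N` -/
def wdsc (m N : ℕ) : List W := if 2 ^ m ≤ N then wds m else []

/-- the candidate reduction -/
def GE (i x : W) : W := EW i (pr i x)

/-- The pair `p` of code words is falsified before `x`. -/
def falE (i p x : W) : Bool :=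
  (wds x.length).any (fun v => decide ((EW (fs p) v).length ≤ x.length) &&
    (!decide (EW (sn p) (EW (fs p) v) = v) ||
      (wds (EW (fs p) v).length).all (fun y => !decide (GE i y = EW (fs p) v))))

/-- the first pair which is not falsified before `x` -/
def kkE (i x : W) : W := ((wds (x.length + 1)).find? (fun p => !falE i p x)).getD []

/-- the decoded word -/
def tauE (i x : W) : W := EW (sn (kkE i x)) (GE i x)

/-- the target predicate -/
def TE (A : Set W) (i x : W) : Prop := (fs (tauE i x)).length ≤ x.length ∧ fs (tauE i x) ∈ A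

/-- the first word with the same value -/
def y0 (i x : W) : W := ((wds (x.length + 1)).find? (fun y => decide (GE i y = GE i x))).getD x

/-- the diagonal set -/
def DE (A : Set W) : Set W :=
  {w | ∃ i x : W, w = pr i x ∧
    (((GE i x).length ≤ x.length ∧ GE i x ∉ A) ∨
      (x.length < (GE i x).length ∧ ((y0 i x = x ∧ TE A i x) ∨ (y0 i x ≠ x ∧ ¬ TE A i (y0 i x)))))}

/-- a complete set -/
def UE : Set W := {w | ∃ (p x : W) (j : ℕ), w = pr p (pr x (List.replicate j true)) ∧
  EW p (pr x (List.replicate (2 ^ j) true)) = [true]}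

/-- the hypothesis for length-increasing functions -/
def HypL : Prop := ∀ f : W → W, PTime f → Injective f → (∀ x, x.length < (f x).length) →
  ∃ g, PInv g ∧ Set.range g ⊆ Set.range f

/-! ## V. Exponential time -/

/-- V1 (short). PROOF. `PAD` with `C = 2`, `k w = (|w| + 2)^d` (`PT`), `f N w = r (w, N)`, `A = W`, `e = id`: time `D (2^(k w) + |w| + 1)^D ≤ 2^p(|w|)` for a polynomial `p`
(`D ≤ 2^D`, `2^k + n + 1 ≤ 2^(k + n + 1)`). -/
def V1_stmt : Prop := ∀ A, EXPP A → EXPT A

/-- V2 (LONG). PROOF. Adapt X5 (`Pool/Agent/helper55/RI/X5.lean`): there the simulation of a machine by the iteration of a `PT` step function `s` on the initial representation is iterated `T(|w|)` times; now it is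
iterated `N` times, where `N` is the second input (a machine which has halted does not move any more, `s d = d`), `N = ck d x ≥ 2^(c(|x|))` for suitable `d` (a polynomial is `≤ (n + 2)^d` for
some `d`). The answer: the output stack has the single symbol corresponding to `true`. (`MachineTime`: `TM2OutputsInTime` with the output word `[f a]`; the machine is a
`TM2ComputableAux Bool Bool`.) `theorem X4`, `X3` with `X4 X3 : X4_stmt`. -/
def V2_stmt : Prop := ∀ A, EXPT A → EXPP A

/-- V3 (medium). Code words. PROOF. `toks` by `pt_foldl` (the size of the state is at most linear in the size of the processed part), `insOf`, `parse` by `fun_prop`. Surjective: `toks` of the word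
`1^(a_1) 0 1^(a_2) 0 ... 1^(a_k) 0` is the list `[a_k, ..., a_1]`, every list of numbers occurs; numbers in `parse` are `≤ |p|`, as every element of `toks p` is `≤ |p|` (and `getD` with default `0`).
(For `q = (L, a, b)` take the tokens `L.length, a, b, ...`: note that `insOf` is applied to `(toks p).drop 1` and starts at the index `2`, i.e. at the index `3` of `toks p`.) -/
def V3_stmt : Prop := PT parse ∧ (∀ q, ∃ p, parse p = q) ∧ (∀ p, (parse p).2.2 ≤ p.length)

/-- V4 (medium). Uses V3. PROOF. As X7 (`Pool/Agent/helper71/RI/X7.lean`), where `gstep` is `PT` in both arguments (`X7_gstep`, `X7_st`) and the size of the configuration grows by at most a constant plus the size of the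
program in every step; `pt_iter` with the number of iterations `min ((|w|+2)^d) N`; the number `min (b^e) N` is `PT` in `(b, e, N)`: clipped iteration `y ↦ min (b y) N`, `e` times (`pt_citer`, see `D4`,
`Pool/Agent/helper70/RI/D4.lean`). Length: every step adds at most one symbol to a stack; so the length of every stack is at most `|w|` plus the number of steps (invariant: all
stacks of the configuration have length at most `|w| + t`). -/
def V4_stmt : Prop :=
  PT (fun t : W × W × ℕ => EWc t.1 t.2.1 t.2.2) ∧
  (∀ (p w : W) (N : ℕ), (w.length + 2) ^ p.length ≤ N → EWc p w N = EW p w) ∧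
  (∀ p w : W, (EW p w).length ≤ w.length + (w.length + 2) ^ p.length) ∧
  (∀ f : W → W, PT f → ∃ p, EW p = f) ∧ (∀ p, PT (EW p))

/-- V5 (short). `PT` of clocks and of the list of all words. PROOF. `min (a ^ b) N` as in V4. `2 ^ ((n + 2) ^ d) ∧ N`: `min (2 ^ min ((n+2)^d) N) N` is the same (`N < 2^N`). `wdsc`: clipped iteration
(`pt_citer`) of `l ↦ [] :: l.flatMap ..`, the size of `wds m` is at most `2^m (4 m + 4)`-ish, so a clip at the size `(4 m + 8) * N` is not active if `2^m ≤ N`; `bif leb (min (2^m) (N + 1)) N ..`. Third item: `wds` is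
compatible: `wds n` is a prefix of `wds m` for `n ≤ m` (induction), `w ∈ wds n ↔ |w| < n`. -/
def V5_stmt : Prop :=
  PT (fun t : ℕ × ℕ × ℕ => min (t.1 ^ t.2.1) t.2.2) ∧
  (∀ d, PT (fun t : W × ℕ => min (ck d t.1) t.2)) ∧
  PT (fun t : ℕ × ℕ => wdsc t.1 t.2) ∧
  (∀ n m : ℕ, n ≤ m → wds n <+: wds m) ∧ (∀ (n : ℕ) (w : W), w ∈ wds n ↔ w.length < n)

/-- V6 (LONG). The diagonal set is in exponential time. Uses G1, V4, V5.
PROOF. Let `A` be given by `(r, d)`. Clipped versions with a clock `N`: replace `EW p w` by `EWc p w N`, `wds m` by `wdsc m N`, `u ∈ A` by `r (u, min (ck d u) N)` everywhere in `falE`, `kkE`, `tauE`, `TE`, `y0`, `DE`; the resulting function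
`R (w, N)` (with `i = fs w`, `x = sn w`, and the test `pr i x = w`) is `PT` (`fun_prop`; `pt_any`, `pt_all`, `pt_find?`; `decide (a = b)` on words is `eqb a b`, `decide (a ≤ b)` on numbers is `leb a b`). For
`n = |w|` (`|i|, |x| ≤ n`) and `N = ck D w = 2^((n+2)^D)`, `D = max 5 d + 1`, all clips are inactive: `|pr i y| ≤ 2 n + 1` for `|y| ≤ |x|` (`|pr i y| = 2|i| + 1 + |y|`, `2 |i| + 1 + |x| = n`), the time
`(n + 3)^n ≤ 2^((n+2)^2)` (`n + 3 ≤ 2^(n+2)`), so `|GE i y| ≤ n + 2^((n+2)^2)`; `EW (fs p) v` for `|v| < |x|`, `|p| ≤ |x|`; `EW (sn p) u` only matters for `|u| ≤ |x|` in `falE` (the first factor of the conjunction is `false`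
otherwise), and `EW (sn k) (GE i x)` needs `(n + 2^((n+2)^2) + 2)^n ≤ 2^((n+2)^4)`; the membership of `u = GE i x` or `u = fs (tauE ..)` in `A` only matters for `|u| ≤ |x| ≤ n`: `ck d u ≤ N`. -/
def V6_stmt : Prop := ∀ A, EXPP A → EXPP (DE A)

/-- V7 (medium). The analysis. Uses V5. (`pr` is injective: G1.) PROOF. If `|GE i x| ≤ |x|` then `pr i x ∈ DE A ↔ GE i x ∉ A`, but `pr i x ∈ DE A ↔ EW i (pr i x) ∈ A`. So `GE i` is length-increasing. Let `y = y0 i x`
(the first word in the order of `wds` with the value `GE i x`; `x` itself is in `wds (|x| + 1)`). Then `|y| ≤ |x|`, `GE i y = GE i x` and `y0 i y = y` (`wds (|y| + 1)` is a prefix of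
`wds (|x| + 1)` which contains `y`). If `y ≠ x`: `GE i x ∈ A ↔ pr i x ∈ DE A ↔ ¬ TE A i y` and `GE i y ∈ A ↔ pr i y ∈ DE A ↔ TE A i y`, contradiction. So `y0 i x = x` for all `x`: `TE A i x ↔ GE i x ∈ A`. Injective: if
`GE i x = GE i x'` then `y0 i x`, `y0 i x'` are both the first word with this value (compare prefixes, `|x| ≤ |x'|`), so `x = x'`. -/
def V7_stmt : Prop := ∀ (A : Set W) (i : W), (∀ w, w ∈ DE A ↔ EW i w ∈ A) →
  Injective (GE i) ∧ (∀ x, x.length < (GE i x).length) ∧ ∀ x, TE A i x ↔ GE i x ∈ A

/-- V8 (LONG). The decoder. Uses G1, V4, V5.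
PROOF. Call the pair `p` good if `EW (sn p) (EW (fs p) v) = v` and `EW (fs p) v ∈ range (GE i)` for all `v`. As `|y| < |GE i y|`, `falE i p x = true` iff some `v` with `|v| < |x|`, `|EW (fs p) v| ≤ |x|` violates
this; so it only depends on `|x|` and is monotone in `|x|`, and `p` is good iff `falE i p x = false` for all `x`. By hypothesis and V4 there is a good pair (`p = pr p1 p2`). Let `p` be the first good pair in the order of
`wds` (i.e. in `wds (|p| + 1)` for one good pair), `M ≥ |p|` such that all pairs before `p` are falsified before every `x` with `|x| ≥ M`. Then `kkE i x = p` for `|x| ≥ M` (prefixes, `find?`). Put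
`g = EW (fs p)`, `m = EW (sn p)`. The functions `GE i` (V4, G1) and `m` are `PT`, so there is a monotone polynomial `P` with `|m (GE i y)| ≤ P(|y|)` (`PT.size`, `sz v ≤ 4 |v| + 1`, `|v| ≤ sz v`). Let `J n = P(n + M)` and
`z' = pr (fs z) (pre (J |z|) z)`, `e z = g z'`. Let `e z = GE i y`. Then `|z'| = |m (GE i y)| ≤ P(|y|)` and `|z'| > P(|z| + M)`, so `|y| > |z| + M`. So `tauE i y = m (GE i y) = m (g z') = z'`, `fs z' = fs z`, `|fs z| ≤ |z| ≤ |y|`,
hence `TE A i y ↔ fs z ∈ A`, and `TE A i y ↔ GE i y = e z ∈ A`. Inverse of `e`: `m`, `sn`, then removing `pre (J |z|)` (`K3`: `strip`). -/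
def V8_stmt : Prop := ∀ (A : Set W) (i : W), Injective (GE i) → (∀ x, x.length < (GE i x).length) →
  (∀ x, TE A i x ↔ GE i x ∈ A) →
  (∃ g m : W → W, PT g ∧ PT m ∧ (∀ x, m (g x) = x) ∧ ∀ z, ∃ y, GE i y = g z) →
  ∃ e m : W → W, PT e ∧ PT m ∧ (∀ x, m (e x) = x) ∧ ∀ z, z ∈ cyl A ↔ e z ∈ A

/-- V9 (medium). A complete set. Uses G1, V4, V5. PROOF. `UE`: `R (w, N)`: with `p = fs w`, `x = fs (sn w)`, `t = sn (sn w)`, test `pr p (pr x t) = w` and `t = replicate |t| true`, and `EWc p (pr x (replicate (min (2^|t|) N) true)) N = [true]`; for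
`N = ck 4 w` the clips are inactive (`|pr x 1^(2^j)| + 2 ≤ 2 n + 3 + 2^n ≤ 2^(2n+3)`, to the power `n`). Second item: let `B` be given by `(r, d)`; the word function `v ↦ [r (fs v, |sn v|)]` is `PT`, `= EW p` (V4);
`x ∈ B ↔ pr p (pr x 1^((|x|+2)^d)) ∈ UE`. -/
def V9_stmt : Prop := EXPP UE ∧ ∀ B, EXPP B → ∃ f : W → W, PT f ∧ ∀ x, x ∈ B ↔ f x ∈ UE

/-- V10 (medium). Images and preimages. Uses G1, V5. PROOF. Preimage: `f` is `PT`, `|f x| ≤ (|x|+2)^k`, `R (x, N) = r (f x, min (ck d (f x)) N)`, `N = ck D x`, `((|x|+2)^k + 2)^d ≤ (|x|+2)^D`. Image: `y ∈ f '' A` iff some `x` with `|x| < |y|` has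
`f x = y`, `x ∈ A`: `(wdsc |y| N).any (fun x => eqb (f x) y && r (x, min (ck d x) N))`. -/
def V10_stmt : Prop := (∀ (A : Set W) (f : W → W), EXPP A → PT f → EXPP {x | f x ∈ A}) ∧
  ∀ (A : Set W) (f : W → W), EXPP A → PT f → Injective f → (∀ x, x.length < (f x).length) → EXPP (f '' A)

/-- V. (assembly, helper55) -/
def V_stmt : Prop := (∃ C, CompleteIn {A | EXPT A} C) ∧ (IsoIn {A | EXPT A} ↔ HypL)

end Pool.Agent.RI
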